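import Pool.Agent.TH362.TF.Four
import Pool.Agent.TH362.TF.Basic

set_option autoImplicit false
set_option linter.unusedSectionVars false
set_option synthInstance.maxHeartbeats 400000
set_option synthInstance.maxSize 2048

/-!
# Flows with values in the group of order four: contraction of circuits with at most four edges
-/

namespace Pool.Agent.R890.FF

open Finset Pool.Agent.TH362.TF Pool.Agent.TH362.TF.Four

variable {V E : Type} [Fintype V] [DecidableEq V] [DecidableEq E]

/-- a path in the support of `χ` from a vertex at which `χ` is not conserved to another one -/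
theorem kem (s t : E → V) (T : Finset E) (χ : E → ZMod 2) (v0 : V) (h0 : B s t T χ v0 ≠ 0) :
    ∃ w, w ≠ v0 ∧ B s t T χ w ≠ 0 ∧ ∃ δ : E → ZMod 2, (∀ e ∈ T, δ e ≠ 0 → χ e = 1) ∧
      ∀ v, B s t T δ v = (if v0 = v then 1 else 0) + (if w = v then 1 else 0) := by
  classical
  by_contra hcon
  push Not at hcon
  set X : Finset V := univ.filter (fun u => ∃ δ : E → ZMod 2, (∀ e ∈ T, δ e ≠ 0 → χ e = 1) ∧
      ∀ v, B s t T δ v = (if v0 = v then 1 else 0) + (if u = v then 1 else 0)) with hX
  have hv0 : v0 ∈ X := by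
    rw [hX, mem_filter]
    refine ⟨mem_univ _, fun _ => 0, fun e _ he => absurd rfl he, fun v => ?_⟩
    rw [CharTwo.add_self_eq_zero]
    unfold B
    simp
  have hcl : ∀ e ∈ T, χ e = 1 → ∀ u u', Ends s t u u' e → u ∈ X → u' ∈ X := by
    intro e he hχ u u' hE hu
    rw [hX, mem_filter] at hu ⊢
    obtain ⟨-, δ, hδ, hB⟩ := hu
    refine ⟨mem_univ _, fun e' => δ e' + (if e' = e then 1 else 0), fun e' he' hne => ?_,
      fun v => ?_⟩
    · by_cases hee : e' = e
      · rw [hee]; exact hχ
      · refine hδ e' he' ?_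
        simpa [hee] using hne
    · rw [B_add, hB, B_single s t T e he, ends_ite hE]
      have h2 : ∀ x y z : ZMod 2, x + y + (y + z) = x + z := by decide
      exact h2 _ _ _
  have hiff : ∀ e ∈ T, χ e = 1 → (s e ∈ X ↔ t e ∈ X) := fun e he hχ =>
    ⟨hcl e he hχ _ _ (Or.inl ⟨rfl, rfl⟩), hcl e he hχ _ _ (Or.inr ⟨rfl, rfl⟩)⟩
  have h1 : ∑ v ∈ X, B s t T χ v = 0 := by
    unfold B
    rw [Finset.sum_comm]
    refine Finset.sum_eq_zero fun e he => ?_
    rw [Finset.sum_add_distrib, Finset.sum_ite_eq, Finset.sum_ite_eq]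
    rcases two_cases (χ e) with h2 | h2
    · rw [h2]; simp
    · have h3 := hiff e he h2
      rw [h2]
      by_cases h4 : s e ∈ X
      · rw [if_pos h4, if_pos (h3.1 h4)]; decide
      · rw [if_neg h4, if_neg (fun h => h4 (h3.2 h))]; decide
  rw [← Finset.add_sum_erase X _ hv0] at h1
  have h2 : ∑ v ∈ X.erase v0, B s t T χ v = 0 := by
    refine Finset.sum_eq_zero fun v hv => ?_
    rw [mem_erase, hX, mem_filter] at hv
    obtain ⟨hne, -, δ, hδ, hB⟩ := hv
    by_contra h3
    obtain ⟨v', hv'⟩ := hcon v hne h3 δ hδ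
    exact hv' (hB v')
  rw [h2, add_zero] at h1
  exact h0 h1

theorem B_insert (s t : E → V) (A : Finset E) (φ : E → F) {e : E} (he : e ∉ A) (v : V) :
    B s t (insert e A) φ v =
      ((if s e = v then φ e else 0) + (if t e = v then φ e else 0)) + B s t A φ v := by
  unfold B
  rw [Finset.sum_insert he]

theorem B_one (s t : E → V) (φ : E → F) (e : E) (v : V) :
    B s t {e} φ v = ((if s e = v then φ e else 0) + (if t e = v then φ e else 0)) := by
  unfold B
  rw [Finset.sum_singleton]

theorem B_congr (s t : E → V) (A : Finset E) {φ ψ : E → F} (h : ∀ e ∈ A, φ e = ψ e) (v : V) :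
    B s t A φ v = B s t A ψ v := by
  unfold B
  exact Finset.sum_congr rfl fun e he => by rw [h e he]

theorem ends_val {s t : E → V} {u w : V} {x : E} (h : Ends s t u w x) (y : F) (v : V) :
    ((if s x = v then y else 0) + (if t x = v then y else 0)) =
      (if u = v then y else 0) + (if w = v then y else 0) := by
  rcases h with ⟨h1, h2⟩ | ⟨h1, h2⟩
  · rw [h1, h2]
  · rw [h1, h2, add_comm]

theorem B_quot (s t : E → V) (S : Finset E) (φ : E → F) (f : V → V) (v : V) :
    B (fun e => f (s e)) (fun e => f (t e)) S φ v =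
      ∑ u ∈ univ.filter (fun u => f u = v), B s t S φ u := by
  unfold B
  rw [Finset.sum_comm]
  refine Finset.sum_congr rfl fun e _ => ?_
  rw [Finset.sum_add_distrib, Finset.sum_ite_eq, Finset.sum_ite_eq]
  simp only [mem_filter, mem_univ, true_and]

theorem B_loop (s t : E → V) (S : Finset E) (φ : E → F) {e : E} (he : e ∈ S) (h : s e = t e)
    (v : V) : B s t S φ v = B s t (S.erase e) φ v := by
  conv_lhs => rw [← Finset.insert_erase he]
  rw [B_insert s t _ φ (Finset.notMem_erase e S), h, addF, zero_add]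

theorem B_cut (s t : E → V) (S : Finset E) (φ : E → F) (v : V) :
    B s t S φ v = ∑ e ∈ cut s t S (fun u => decide (u = v)), φ e := by
  unfold B cut
  rw [Finset.sum_filter]
  refine Finset.sum_congr rfl fun e _ => ?_
  by_cases h1 : s e = v <;> by_cases h2 : t e = v <;> simp [h1, h2, addF]

theorem ex2 : ∀ p : F, ∃ x : F, x ≠ 0 ∧ x + p ≠ 0 := by decide

theorem ex3 : ∀ p q : F, ∃ x : F, x ≠ 0 ∧ x + p ≠ 0 ∧ x + q ≠ 0 := by decide

/-- a vertex with two proper edges -/
theorem con2 (s t : E → V) (S : Finset E) {w a : V} {e e' : E} (he : e ∈ S)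
    (hE : Ends s t w a e) (hwa : w ≠ a) (hee : e ≠ e')
    (hcut : cut s t S (fun u => decide (u = w)) = {e, e'})
    (f : V → V) (hf1 : f w = a) (hf2 : ∀ v, v ≠ w → f v = v)
    (h : NZ (fun x => f (s x)) (fun x => f (t x)) S) : NZ s t S := by
  classical
  obtain ⟨φ, h1, h2⟩ := h
  set T := S.erase e with hT
  have hS : S = insert e T := (Finset.insert_erase he).symm
  have heT : e ∉ T := Finset.notMem_erase e S
  have hfa : f a = a := hf2 a (Ne.symm hwa)
  have hB : ∀ v, B (fun x => f (s x)) (fun x => f (t x)) T φ v = 0 := by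
    intro v
    have h3 := h2 v
    rw [hT, ← B_loop _ _ S φ he _ v]
    · exact h3
    · rcases hE with ⟨h4, h5⟩ | ⟨h4, h5⟩
      · simp only [h4, h5, hf1, hfa]
      · simp only [h4, h5, hf1, hfa]
  have hq : ∀ v, v ≠ w → v ≠ a → B s t T φ v = 0 := by
    intro v h3 h4
    have h5 := hB v
    rw [B_quot] at h5
    have h6 : univ.filter (fun u => f u = v) = {v} := by
      ext u
      rw [mem_filter, mem_singleton]
      constructor
      · rintro ⟨-, h⟩
        by_cases hu : u = w
        · rw [hu, hf1] at h; exact absurd h.symm h4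
        · rw [hf2 u hu] at h; exact h
      · rintro rfl
        exact ⟨mem_univ _, hf2 _ h3⟩
    rwa [h6, Finset.sum_singleton] at h5
  have hq2 : B s t T φ w + B s t T φ a = 0 := by
    have h5 := hB a
    rw [B_quot] at h5
    have h6 : univ.filter (fun u => f u = a) = {w, a} := by
      ext u
      rw [mem_filter, mem_insert, mem_singleton]
      constructor
      · rintro ⟨-, h⟩
        by_cases hu : u = w
        · exact Or.inl hu
        · rw [hf2 u hu] at h; exact Or.inr h
      · rintro (rfl | rfl)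
        · exact ⟨mem_univ _, hf1⟩
        · exact ⟨mem_univ _, hfa⟩
    rwa [h6, Finset.sum_pair hwa] at h5
  have hw : B s t T φ w = φ e' := by
    rw [B_cut]
    have h6 : cut s t T (fun u => decide (u = w)) = {e'} := by
      have h7 : cut s t T (fun u => decide (u = w)) =
          (cut s t S (fun u => decide (u = w))).erase e := by
        unfold cut
        rw [hT, Finset.filter_erase]
      rw [h7, hcut]
      ext x
      simp only [mem_erase, mem_insert, mem_singleton]
      constructor
      · rintro ⟨h8, h9 | h9⟩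
        · exact absurd h9 h8
        · exact h9
      · rintro rfl
        exact ⟨hee.symm, Or.inr rfl⟩
    rw [h6, Finset.sum_singleton]
  have he' : e' ∈ S := by
    have : e' ∈ cut s t S (fun u => decide (u = w)) := by rw [hcut]; simp
    exact (mem_filter.1 this).1
  refine ⟨fun x => if x = e then φ e' else φ x, fun x hx => ?_, fun v => ?_⟩
  · by_cases hxe : x = e
    · simp only [hxe, if_true]; exact h1 e' he'
    · simp only [hxe, if_false]; exact h1 x hx
  · have h7 : B s t S (fun x => if x = e then φ e' else φ x) v = 0 := by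
      conv_lhs => rw [hS]
      rw [B_insert s t T _ heT, ends_val hE]
      rw [B_congr s t T (ψ := φ) (fun x hx => by
        have : x ≠ e := fun h => heT (h ▸ hx)
        simp [this])]
      simp only [if_true]
      by_cases h8 : v = w
      · rw [h8, if_pos rfl, if_neg (Ne.symm hwa), hw, add_zero, addF]
      · by_cases h9 : v = a
        · rw [h9, if_neg hwa, if_pos rfl, zero_add, ← hw, hq2]
        · rw [if_neg (Ne.symm h8), if_neg (Ne.symm h9), hq v h8 h9, add_zero, add_zero]
    exact h7

theorem B_sdiff (s t : E → V) {S Y : Finset E} (hY : Y ⊆ S) (φ : E → F) (v : V) :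
    B s t S φ v = B s t (S \ Y) φ v + B s t Y φ v := by
  unfold B
  exact (Finset.sum_sdiff hY).symm

/-- a flow from a function outside `Y` and a function on `Y` with the same boundary -/
theorem close (s t : E → V) {S Y : Finset E} (hY : Y ⊆ S) (g h : E → F)
    (hg : ∀ e ∈ S \ Y, g e ≠ 0) (hh : ∀ e ∈ Y, h e ≠ 0)
    (hB : ∀ v, B s t Y h v = B s t (S \ Y) g v) : NZ s t S := by
  classical
  refine ⟨fun e => if e ∈ Y then h e else g e, fun e he => ?_, fun v => ?_⟩
  · by_cases h1 : e ∈ Y
    · simp only [h1, if_true]; exact hh e h1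
    · simp only [h1, if_false]; exact hg e (mem_sdiff.2 ⟨he, h1⟩)
  · have h7 : B s t S (fun e => if e ∈ Y then h e else g e) v = 0 := by
      rw [B_sdiff s t hY, B_congr s t (S \ Y) (ψ := g) (fun x hx => by
        simp [(mem_sdiff.1 hx).2]), B_congr s t Y (ψ := h) (fun x hx => by simp [hx]), hB, addF]
    exact h7

/-- the boundary of a flow on a graph in which the vertices in `A` are identified -/
theorem ident (s t : E → V) {S Y : Finset E} (hY : Y ⊆ S) {A : Finset V} {a : V} (ha : a ∈ A)
    (hl : ∀ e ∈ Y, s e ∈ A ∧ t e ∈ A) {φ : E → F}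
    (h : ∀ v, Cons (fun e => if s e ∈ A then a else s e) (fun e => if t e ∈ A then a else t e)
      S φ v) : (∀ v, v ∉ A → B s t (S \ Y) φ v = 0) ∧ ∑ v ∈ A, B s t (S \ Y) φ v = 0 := by
  classical
  set f : V → V := fun v => if v ∈ A then a else v with hf
  have hB : ∀ v, B (fun x => f (s x)) (fun x => f (t x)) (S \ Y) φ v = 0 := by
    intro v
    have h3 : B (fun x => f (s x)) (fun x => f (t x)) S φ v = 0 := h v
    rw [B_sdiff _ _ hY] at h3
    have h4 : B (fun x => f (s x)) (fun x => f (t x)) Y φ v = 0 := by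
      unfold B
      refine Finset.sum_eq_zero fun e he => ?_
      obtain ⟨h5, h6⟩ := hl e he
      simp only [hf, h5, h6, if_true]
      exact addF _
    rw [h4, add_zero] at h3
    exact h3
  constructor
  · intro v hv
    have h5 := hB v
    rw [B_quot] at h5
    have h6 : univ.filter (fun u => f u = v) = {v} := by
      ext u
      rw [mem_filter, mem_singleton]
      constructor
      · rintro ⟨-, h⟩
        by_cases hu : u ∈ A
        · simp only [hf, hu, if_true] at h; exact absurd (h ▸ ha) hv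
        · simpa only [hf, hu, if_false] using h
      · rintro rfl
        exact ⟨mem_univ _, by simp only [hf, hv, if_false]⟩
    rwa [h6, Finset.sum_singleton] at h5
  · have h5 := hB a
    rw [B_quot] at h5
    have h6 : univ.filter (fun u => f u = a) = A := by
      ext u
      rw [mem_filter]
      constructor
      · rintro ⟨-, h⟩
        by_contra hu
        simp only [hf, hu, if_false] at h
        exact hu (h ▸ ha)
      · intro hu
        exact ⟨mem_univ _, by simp only [hf, hu, if_true]⟩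
    rwa [h6] at h5

/-- circuits with two edges -/
theorem con_two (s t : E → V) (S : Finset E) {a b : V} {e0 e1 : E} (he0 : e0 ∈ S) (he1 : e1 ∈ S)
    (h01 : e0 ≠ e1) (E0 : Ends s t a b e0) (E1 : Ends s t b a e1) (hab : a ≠ b)
    (h : NZ (fun e => if s e ∈ ({a, b} : Finset V) then a else s e)
      (fun e => if t e ∈ ({a, b} : Finset V) then a else t e) S) : NZ s t S := by
  classical
  obtain ⟨φ, h1, h2⟩ := h
  have hY : ({e0, e1} : Finset E) ⊆ S := by
    intro x hx
    simp only [mem_insert, mem_singleton] at hx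
    rcases hx with rfl | rfl <;> assumption
  obtain ⟨q1, q2⟩ := ident s t hY (A := {a, b}) (a := a) (by simp) (by
    intro e he
    simp only [mem_insert, mem_singleton] at he ⊢
    rcases he with rfl | rfl
    · rcases E0 with ⟨h4, h5⟩ | ⟨h4, h5⟩ <;> simp [h4, h5]
    · rcases E1 with ⟨h4, h5⟩ | ⟨h4, h5⟩ <;> simp [h4, h5]) h2
  rw [Finset.sum_pair hab] at q2
  obtain ⟨x, x1, x2⟩ := ex2 (B s t (S \ {e0, e1}) φ b)
  refine close s t hY φ (fun y => if y = e0 then x else x + B s t (S \ {e0, e1}) φ b)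
    (fun e he => h1 e (mem_sdiff.1 he).1) ?_ ?_
  · intro e he
    simp only [mem_insert, mem_singleton] at he
    rcases he with rfl | rfl
    · simpa using x1
    · simpa [h01.symm] using x2
  · intro v
    rw [B_insert s t _ _ (by simpa using h01), B_one, ends_val E0, ends_val E1]
    simp only [if_true, h01.symm, if_false]
    generalize hA : B s t (S \ {e0, e1}) φ a = p at q2
    generalize hC : B s t (S \ {e0, e1}) φ b = q at q2 ⊢
    by_cases h8 : v = a
    · rw [h8]
      simp only [if_true, hab.symm, if_false]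
      rw [hA]
      have : ∀ x p q : F, p + q = 0 → x + 0 + (0 + (x + q)) = p := by decide
      exact this x p q q2
    · by_cases h9 : v = b
      · rw [h9]
        simp only [if_true, hab, if_false]
        rw [hC]
        have : ∀ x q : F, 0 + x + (x + q + 0) = q := by decide
        exact this x q
      · rw [if_neg (Ne.symm h8), if_neg (Ne.symm h9), q1 v (by simp [h8, h9])]
        simp [Ne.symm h8, Ne.symm h9]

/-- circuits with three edges -/
theorem con_three (s t : E → V) (S : Finset E) {a b c : V} {e0 e1 e2 : E} (he0 : e0 ∈ S)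
    (he1 : e1 ∈ S) (he2 : e2 ∈ S) (E0 : Ends s t a b e0)
    (E1 : Ends s t b c e1) (E2 : Ends s t c a e2) (hab : a ≠ b) (hac : a ≠ c) (hbc : b ≠ c)
    (h : NZ (fun e => if s e ∈ ({a, b, c} : Finset V) then a else s e)
      (fun e => if t e ∈ ({a, b, c} : Finset V) then a else t e) S) : NZ s t S := by
  classical
  have h01 : e0 ≠ e1 := by
    rintro rfl
    rcases E0 with ⟨h4, h5⟩ | ⟨h4, h5⟩ <;> rcases E1 with ⟨h6, h7⟩ | ⟨h6, h7⟩ <;> simp_all
  have h02 : e0 ≠ e2 := by
    rintro rfl
    rcases E0 with ⟨h4, h5⟩ | ⟨h4, h5⟩ <;> rcases E2 with ⟨h6, h7⟩ | ⟨h6, h7⟩ <;> simp_all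
  have h12 : e1 ≠ e2 := by
    rintro rfl
    rcases E1 with ⟨h4, h5⟩ | ⟨h4, h5⟩ <;> rcases E2 with ⟨h6, h7⟩ | ⟨h6, h7⟩ <;> simp_all
  obtain ⟨φ, h1, h2⟩ := h
  have hY : ({e0, e1, e2} : Finset E) ⊆ S := by
    intro x hx
    simp only [mem_insert, mem_singleton] at hx
    rcases hx with rfl | rfl | rfl <;> assumption
  obtain ⟨q1, q2⟩ := ident s t hY (A := {a, b, c}) (a := a) (by simp) (by
    intro e he
    simp only [mem_insert, mem_singleton] at he ⊢
    rcases he with rfl | rfl | rfl
    · rcases E0 with ⟨h4, h5⟩ | ⟨h4, h5⟩ <;> simp [h4, h5]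
    · rcases E1 with ⟨h4, h5⟩ | ⟨h4, h5⟩ <;> simp [h4, h5]
    · rcases E2 with ⟨h4, h5⟩ | ⟨h4, h5⟩ <;> simp [h4, h5]) h2
  rw [Finset.sum_insert (by simp [hab, hac]), Finset.sum_pair hbc] at q2
  obtain ⟨x, x1, x2, x3⟩ := ex3 (B s t (S \ {e0, e1, e2}) φ b) (B s t (S \ {e0, e1, e2}) φ a)
  refine close s t hY φ (fun y => if y = e0 then x else if y = e1 then
    x + B s t (S \ {e0, e1, e2}) φ b else x + B s t (S \ {e0, e1, e2}) φ a)
    (fun e he => h1 e (mem_sdiff.1 he).1) ?_ ?_
  · intro e he
    simp only [mem_insert, mem_singleton] at he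
    rcases he with rfl | rfl | rfl
    · simpa using x1
    · simpa [h01.symm] using x2
    · simpa [h02.symm, h12.symm] using x3
  · intro v
    rw [B_insert s t _ _ (by simp [h01, h02]), B_insert s t _ _ (by simpa using h12),
      B_one, ends_val E0, ends_val E1, ends_val E2]
    simp only [if_true, h01.symm, h02.symm, h12.symm, if_false]
    generalize hA : B s t (S \ {e0, e1, e2}) φ a = p at q2 ⊢
    generalize hC : B s t (S \ {e0, e1, e2}) φ b = q at q2 ⊢
    generalize hD : B s t (S \ {e0, e1, e2}) φ c = r at q2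
    by_cases h8 : v = a
    · rw [h8]
      simp only [if_true, hab.symm, hac.symm, if_false]
      rw [hA]
      have : ∀ x p : F, x + 0 + (0 + 0 + (0 + (x + p))) = p := by decide
      exact this x p
    · by_cases h9 : v = b
      · rw [h9]
        simp only [if_true, hab, hbc.symm, if_false]
        rw [hC]
        have : ∀ x q : F, 0 + x + (x + q + 0 + (0 + 0)) = q := by decide
        exact this x q
      · by_cases h10 : v = c
        · rw [h10]
          simp only [if_true, hac, hbc, if_false]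
          rw [hD]
          have : ∀ x p q r : F, p + (q + r) = 0 →
              0 + 0 + (0 + (x + q) + (x + p + 0)) = r := by decide
          exact this x p q r q2
        · rw [q1 v (by simp [h8, h9, h10])]
          simp [Ne.symm h8, Ne.symm h9, Ne.symm h10]

theorem ex4 : ∀ p q r u : F, p + (q + (r + u)) = 0 →
    (∃ x : F, x ≠ 0 ∧ x + q ≠ 0 ∧ x + q + r ≠ 0 ∧ x + p ≠ 0) ∨
      (q = u ∧ p = r ∧ p ≠ q ∧ p ≠ 0 ∧ q ≠ 0) := by decide

/-- circuits with four edges, if the values can be chosen -/
theorem close_four (s t : E → V) (S : Finset E) {a b c d : V} {e0 e1 e2 e3 : E}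
    (hY : ({e0, e1, e2, e3} : Finset E) ⊆ S) (h01 : e0 ≠ e1) (h02 : e0 ≠ e2) (h03 : e0 ≠ e3)
    (h12 : e1 ≠ e2) (h13 : e1 ≠ e3) (h23 : e2 ≠ e3) (E0 : Ends s t a b e0)
    (E1 : Ends s t b c e1) (E2 : Ends s t c d e2) (E3 : Ends s t d a e3) (hab : a ≠ b)
    (hac : a ≠ c) (had : a ≠ d) (hbc : b ≠ c) (hbd : b ≠ d) (hcd : c ≠ d) (g : E → F)
    (hg : ∀ e ∈ S \ {e0, e1, e2, e3}, g e ≠ 0)
    (q1 : ∀ v, v ≠ a → v ≠ b → v ≠ c → v ≠ d → B s t (S \ {e0, e1, e2, e3}) g v = 0)
    (p q r u : F) (hA : B s t (S \ {e0, e1, e2, e3}) g a = p)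
    (hC : B s t (S \ {e0, e1, e2, e3}) g b = q) (hD : B s t (S \ {e0, e1, e2, e3}) g c = r)
    (hG : B s t (S \ {e0, e1, e2, e3}) g d = u) (q2 : p + (q + (r + u)) = 0)
    (hx : ∃ x : F, x ≠ 0 ∧ x + q ≠ 0 ∧ x + q + r ≠ 0 ∧ x + p ≠ 0) : NZ s t S := by
  classical
  obtain ⟨x, x1, x2, x3, x4⟩ := hx
  refine close s t hY g (fun y => if y = e0 then x else if y = e1 then x + q
    else if y = e2 then x + q + r else x + p) hg ?_ ?_
  · intro e he
    simp only [mem_insert, mem_singleton] at he
    rcases he with rfl | rfl | rfl | rfl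
    · simpa using x1
    · simpa [h01.symm] using x2
    · simpa [h02.symm, h12.symm] using x3
    · simpa [h03.symm, h13.symm, h23.symm] using x4
  · intro v
    rw [B_insert s t _ _ (by simp [h01, h02, h03]), B_insert s t _ _ (by simp [h12, h13]),
      B_insert s t _ _ (by simpa using h23), B_one, ends_val E0, ends_val E1,
      ends_val E2, ends_val E3]
    simp only [if_true, h01.symm, h02.symm, h03.symm, h12.symm, h13.symm, h23.symm, if_false]
    by_cases h8 : v = a
    · rw [h8]
      simp only [if_true, hab.symm, hac.symm, had.symm, if_false]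
      rw [hA]
      have : ∀ x p : F, x + 0 + (0 + 0 + (0 + 0 + (0 + (x + p)))) = p := by decide
      exact this x p
    · by_cases h9 : v = b
      · rw [h9]
        simp only [if_true, hab, hbc.symm, hbd.symm, if_false]
        rw [hC]
        have : ∀ x q : F, 0 + x + (x + q + 0 + (0 + 0 + (0 + 0))) = q := by decide
        exact this x q
      · by_cases h10 : v = c
        · rw [h10]
          simp only [if_true, hac, hbc, hcd.symm, if_false]
          rw [hD]
          have : ∀ x q r : F,
              0 + 0 + (0 + (x + q) + (x + q + r + 0 + (0 + 0))) = r := by decide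
          exact this x q r
        · by_cases h11 : v = d
          · rw [h11]
            simp only [if_true, had, hbd, hcd, if_false]
            rw [hG]
            have : ∀ x p q r u : F, p + (q + (r + u)) = 0 →
                0 + 0 + (0 + 0 + (0 + (x + q + r) + (x + p + 0))) = u := by decide
            exact this x p q r u q2
          · rw [q1 v h8 h9 h10 h11]
            simp [Ne.symm h8, Ne.symm h9, Ne.symm h10, Ne.symm h11]

theorem smul_facts : ∀ p q : F, p ≠ q → p ≠ 0 → q ≠ 0 →
    (∃ x : F, x ≠ 0 ∧ x + (q + (p + q)) ≠ 0 ∧ x + (q + (p + q)) + p ≠ 0 ∧ x + (p + (p + q)) ≠ 0) ∧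
    (∃ x : F, x ≠ 0 ∧ x + q ≠ 0 ∧ x + q + (p + (p + q)) ≠ 0 ∧ x + (p + (p + q)) ≠ 0) ∧
    (∃ x : F, x ≠ 0 ∧ x + q ≠ 0 ∧ x + q + p ≠ 0 ∧ x + (p + (p + q)) ≠ 0) := by decide

/-- circuits with four edges -/
theorem con_four (s t : E → V) (S : Finset E) {a b c d : V} {e0 e1 e2 e3 : E} (he0 : e0 ∈ S)
    (he1 : e1 ∈ S) (he2 : e2 ∈ S) (he3 : e3 ∈ S) (E0 : Ends s t a b e0)
    (E1 : Ends s t b c e1) (E2 : Ends s t c d e2) (E3 : Ends s t d a e3) (hab : a ≠ b)
    (hac : a ≠ c) (had : a ≠ d) (hbc : b ≠ c) (hbd : b ≠ d) (hcd : c ≠ d)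
    (h : NZ (fun e => if s e ∈ ({a, b, c, d} : Finset V) then a else s e)
      (fun e => if t e ∈ ({a, b, c, d} : Finset V) then a else t e) S) : NZ s t S := by
  classical
  have key : ∀ {x y z w : V} {e e' : E}, Ends s t x y e → Ends s t z w e' → x ≠ z ∨ y ≠ w →
      x ≠ w ∨ y ≠ z → e ≠ e' := by
    rintro x y z w e e' h1 h2 h3 h4 rfl
    rcases h1 with ⟨h5, h6⟩ | ⟨h5, h6⟩ <;> rcases h2 with ⟨h7, h8⟩ | ⟨h7, h8⟩ <;>
      rw [h5] at h7 <;> rw [h6] at h8
    · rcases h3 with h | h
      · exact h h7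
      · exact h h8
    · rcases h4 with h | h
      · exact h h7
      · exact h h8
    · rcases h4 with h | h
      · exact h h8
      · exact h h7
    · rcases h3 with h | h
      · exact h h8
      · exact h h7
  have h01 : e0 ≠ e1 := key E0 E1 (Or.inl hab) (Or.inl hac)
  have h02 : e0 ≠ e2 := key E0 E2 (Or.inl hac) (Or.inl had)
  have h03 : e0 ≠ e3 := key E0 E3 (Or.inl had) (Or.inr hbd)
  have h12 : e1 ≠ e2 := key E1 E2 (Or.inl hbc) (Or.inl hbd)
  have h13 : e1 ≠ e3 := key E1 E3 (Or.inl hbd) (Or.inl hab.symm)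
  have h23 : e2 ≠ e3 := key E2 E3 (Or.inl hcd) (Or.inl hac.symm)
  obtain ⟨φ, h1, h2⟩ := h
  have hY : ({e0, e1, e2, e3} : Finset E) ⊆ S := by
    intro x hx
    simp only [mem_insert, mem_singleton] at hx
    rcases hx with rfl | rfl | rfl | rfl <;> assumption
  obtain ⟨q1, q2⟩ := ident s t hY (A := {a, b, c, d}) (a := a) (by simp) (by
    intro e he
    simp only [mem_insert, mem_singleton] at he ⊢
    rcases he with rfl | rfl | rfl | rfl
    · rcases E0 with ⟨h4, h5⟩ | ⟨h4, h5⟩ <;> simp [h4, h5]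
    · rcases E1 with ⟨h4, h5⟩ | ⟨h4, h5⟩ <;> simp [h4, h5]
    · rcases E2 with ⟨h4, h5⟩ | ⟨h4, h5⟩ <;> simp [h4, h5]
    · rcases E3 with ⟨h4, h5⟩ | ⟨h4, h5⟩ <;> simp [h4, h5]) h2
  rw [Finset.sum_insert (by simp [hab, hac, had]), Finset.sum_insert (by simp [hbc, hbd]),
    Finset.sum_pair hcd] at q2
  have q1' : ∀ v, v ≠ a → v ≠ b → v ≠ c → v ≠ d →
      B s t (S \ {e0, e1, e2, e3}) φ v = 0 := fun v h4 h5 h6 h7 => q1 v (by simp [h4, h5, h6, h7])
  have hφ : ∀ e ∈ S \ {e0, e1, e2, e3}, φ e ≠ 0 := fun e he => h1 e (mem_sdiff.1 he).1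
  rcases ex4 _ _ _ _ q2 with hx | ⟨k1, k2, k3, k4, k5⟩
  · exact close_four s t S hY h01 h02 h03 h12 h13 h23 E0 E1 E2 E3 hab hac had hbc hbd hcd φ hφ
      q1' _ _ _ _ rfl rfl rfl rfl q2 hx
  · set T := S \ {e0, e1, e2, e3} with hT
    set p := B s t T φ a with hp
    set q := B s t T φ b with hq
    have f1 := om_facts p q k4 k5 k3
    have hBχ : ∀ v, B s t T (fun e => om (p + q) (φ e)) v = om (p + q) (B s t T φ v) := fun v =>
      B_hom (omH (p + q)) s t T φ v
    obtain ⟨w, hw, hw0, δ, hδ, hBδ⟩ := kem s t T (fun e => om (p + q) (φ e)) a (by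
      rw [hBχ, ← hp, f1.1]; decide)
    have hw4 : w = b ∨ w = c ∨ w = d := by
      by_contra hcon
      push Not at hcon
      apply hw0
      rw [hBχ, q1' w hw hcon.1 hcon.2.1 hcon.2.2]
      simp [om]
    set g : E → F := fun e => φ e + δ e • (p + q) with hg
    have hg0 : ∀ e ∈ T, g e ≠ 0 := by
      intro e he
      rcases two_cases (δ e) with h3 | h3
      · simp only [hg, h3, zero_smul, add_zero]
        exact hφ e he
      · simp only [hg, h3, one_smul]
        exact om_ne _ _ (hδ e he (by rw [h3]; decide))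
    have hgB : ∀ v, B s t T g v = B s t T φ v +
        ((if a = v then (1 : ZMod 2) else 0) + (if w = v then 1 else 0)) • (p + q) := by
      intro v
      rw [← hBδ v]
      have h4 := B_hom (M := ZMod 2) (M' := F)
        ((AddMonoidHom.mulRight (1 : ZMod 2)).comp (AddMonoidHom.id (ZMod 2)) |>.comp
          (AddMonoidHom.id (ZMod 2)) |> fun _ =>
          { toFun := fun x : ZMod 2 => x • (p + q), map_zero' := zero_smul _ _,
            map_add' := fun x y => add_smul x y _ }) s t T δ v
      have h5 : B s t T g v = B s t T φ v + B s t T (fun e => δ e • (p + q)) v := B_add s t T _ _ v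
      rw [h5]
      congr 1
    have hg1 : ∀ v, v ≠ a → v ≠ b → v ≠ c → v ≠ d → B s t T g v = 0 := by
      intro v h4 h5 h6 h7
      rw [hgB, q1' v h4 h5 h6 h7, if_neg (Ne.symm h4), if_neg]
      · simp
      · rintro rfl
        rcases hw4 with h | h | h
        · exact h5 h
        · exact h6 h
        · exact h7 h
    obtain ⟨s1, s2, s3⟩ := smul_facts p q k3 k4 k5
    have z1 : ((1 : ZMod 2) + 0) • (p + q) = p + q := by rw [add_zero, one_smul]
    have z2 : ((0 : ZMod 2) + 1) • (p + q) = p + q := by rw [zero_add, one_smul]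
    have z3 : ((0 : ZMod 2) + 0) • (p + q) = 0 := by rw [add_zero, zero_smul]
    rcases hw4 with rfl | rfl | rfl
    · refine close_four s t S hY h01 h02 h03 h12 h13 h23 E0 E1 E2 E3 hab hac had hbc hbd hcd g hg0
        hg1 (p + (p + q)) (q + (p + q)) p q ?_ ?_ ?_ ?_ ?_ s1
      · rw [hgB, if_pos rfl, if_neg (Ne.symm hab), z1]
      · rw [hgB, if_neg hab, if_pos rfl, z2]
      · rw [hgB, if_neg hac, if_neg hbc, z3, add_zero, ← k2]
      · rw [hgB, if_neg had, if_neg hbd, z3, add_zero, ← k1]
      · generalize p = p'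
        generalize q = q'
        revert p' q'
        decide
    · refine close_four s t S hY h01 h02 h03 h12 h13 h23 E0 E1 E2 E3 hab hac had hbc hbd hcd g hg0
        hg1 (p + (p + q)) q (p + (p + q)) q ?_ ?_ ?_ ?_ ?_ s2
      · rw [hgB, if_pos rfl, if_neg (Ne.symm hac), z1]
      · rw [hgB, if_neg hab, if_neg (Ne.symm hbc), z3, add_zero]
      · rw [hgB, if_neg hac, if_pos rfl, z2, ← k2]
      · rw [hgB, if_neg had, if_neg hcd, z3, add_zero, ← k1]
      · generalize p = p'
        generalize q = q'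
        revert p' q'
        decide
    · refine close_four s t S hY h01 h02 h03 h12 h13 h23 E0 E1 E2 E3 hab hac had hbc hbd hcd g hg0
        hg1 (p + (p + q)) q p (q + (p + q)) ?_ ?_ ?_ ?_ ?_ s3
      · rw [hgB, if_pos rfl, if_neg (Ne.symm had), z1]
      · rw [hgB, if_neg hab, if_neg (Ne.symm hbd), z3, add_zero]
      · rw [hgB, if_neg hac, if_neg (Ne.symm hcd), z3, add_zero, ← k2]
      · rw [hgB, if_neg had, if_pos rfl, z2, ← k1]
      · generalize p = p'
        generalize q = q'
        revert p' q'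
        decide

end Pool.Agent.R890.FF
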