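import Pool.Agent.TH362.TF.Main
import Pool.Agent.R890.FF.Kem

set_option autoImplicit false
set_option linter.unusedSectionVars false

/-!
# Minimal quotients without nowhere-zero flow over the group of order four
-/

namespace Pool.Agent.R890.FF

open Finset Pool.Agent.TH362.TF Pool.Agent.TH362.TF.Four

variable {V E : Type} [Fintype V] [DecidableEq V] [DecidableEq E]

/-- no flow, no Petersen quotient, but every proper quotient has a flow -/
structure Mq (s t : E → V) (S : Finset E) : Prop where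
  n1 : N1 s t S
  nz : ¬ NZ s t S
  pq : ¬ PQ s t S
  mn : ∀ f : V → V, (∃ e ∈ S, s e ≠ t e ∧ f (s e) = f (t e)) →
    NZ (fun e => f (s e)) (fun e => f (t e)) S

theorem exists_Mq (s t : E → V) (S : Finset E) (h1 : N1 s t S) (h2 : ¬ NZ s t S)
    (h3 : ¬ PQ s t S) : ∃ π : V → V, Mq (fun e => π (s e)) (fun e => π (t e)) S := by
  classical
  set P : Finset (V → V) := univ.filter (fun π =>
    ¬ NZ (fun e => π (s e)) (fun e => π (t e)) S ∧ ¬ PQ (fun e => π (s e)) (fun e => π (t e)) S)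
    with hP
  have hne : P.Nonempty := ⟨id, mem_filter.2 ⟨mem_univ _, h2, h3⟩⟩
  obtain ⟨π, hπ, hmin⟩ := Finset.exists_min_image P
    (fun π => (S.filter (fun e => π (s e) ≠ π (t e))).card) hne
  obtain ⟨-, h4, h5⟩ := mem_filter.1 hπ
  refine ⟨π, quot_n1 (S' := S) (Subset.refl _) (fun e h h' => absurd h h') h1, h4, h5, ?_⟩
  rintro f ⟨e, he, hne', hf⟩
  by_contra h6
  have h7 : ¬ PQ (fun e => f (π (s e))) (fun e => f (π (t e))) S := fun h =>
    h5 (quot_pq (s := fun e => π (s e)) (t := fun e => π (t e)) (f := f) (S' := S)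
      (Subset.refl _) (fun e h h' => absurd h h') h)
  have h8 := hmin (fun v => f (π v)) (mem_filter.2 ⟨mem_univ _, h6, h7⟩)
  have h9 : (S.filter (fun e => f (π (s e)) ≠ f (π (t e)))).card <
      (S.filter (fun e => π (s e) ≠ π (t e))).card := by
    refine card_lt_card ⟨?_, ?_⟩
    · intro x hx
      rw [mem_filter] at hx ⊢
      exact ⟨hx.1, fun h => hx.2 (by rw [h])⟩
    · intro h
      have := h (mem_filter.2 ⟨he, hne'⟩)
      exact (mem_filter.1 this).2 hf
  omega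

section
variable {s t : E → V} {S : Finset E}

theorem ends_ne {u w : V} {x : E} (h : Ends s t u w x) (huw : u ≠ w) : s x ≠ t x := by
  rcases h with ⟨h1, h2⟩ | ⟨h1, h2⟩
  · rw [h1, h2]; exact huw
  · rw [h1, h2]; exact huw.symm

theorem ends_comm' {u w : V} {x : E} (h : Ends s t u w x) : Ends s t w u x := Or.symm h

theorem Mq.nopar (h : Mq s t S) {a b : V} (hab : a ≠ b) {e e' : E} (he : e ∈ S) (he' : e' ∈ S)
    (h1 : Ends s t a b e) (h2 : Ends s t a b e') : e = e' := by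
  by_contra hne
  refine h.nz (con_two s t S he he' hne h1 (ends_comm' h2) hab ?_)
  refine h.mn (fun v => if v ∈ ({a, b} : Finset V) then a else v) ⟨e, he, ends_ne h1 hab, ?_⟩
  rcases h1 with ⟨h4, h5⟩ | ⟨h4, h5⟩ <;> simp [h4, h5]

theorem Mq.notri (h : Mq s t S) {a b c : V} (hab : a ≠ b) (hac : a ≠ c) (hbc : b ≠ c)
    {e0 e1 e2 : E} (he0 : e0 ∈ S) (he1 : e1 ∈ S) (he2 : e2 ∈ S) (E0 : Ends s t a b e0)
    (E1 : Ends s t b c e1) (E2 : Ends s t c a e2) : False := by
  refine h.nz (con_three s t S he0 he1 he2 E0 E1 E2 hab hac hbc ?_)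
  refine h.mn (fun v => if v ∈ ({a, b, c} : Finset V) then a else v)
    ⟨e0, he0, ends_ne E0 hab, ?_⟩
  rcases E0 with ⟨h4, h5⟩ | ⟨h4, h5⟩ <;> simp [h4, h5]

theorem Mq.nofour (h : Mq s t S) {a b c d : V} (hab : a ≠ b) (hac : a ≠ c) (had : a ≠ d)
    (hbc : b ≠ c) (hbd : b ≠ d) (hcd : c ≠ d)
    {e0 e1 e2 e3 : E} (he0 : e0 ∈ S) (he1 : e1 ∈ S) (he2 : e2 ∈ S) (he3 : e3 ∈ S)
    (E0 : Ends s t a b e0) (E1 : Ends s t b c e1) (E2 : Ends s t c d e2)
    (E3 : Ends s t d a e3) : False := by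
  refine h.nz (con_four s t S he0 he1 he2 he3 E0 E1 E2 E3 hab hac had hbc hbd hcd ?_)
  refine h.mn (fun v => if v ∈ ({a, b, c, d} : Finset V) then a else v)
    ⟨e0, he0, ends_ne E0 hab, ?_⟩
  rcases E0 with ⟨h4, h5⟩ | ⟨h4, h5⟩ <;> simp [h4, h5]

/-- the neighbours -/
def Nb (s t : E → V) (S : Finset E) (y z : V) : Prop := z ≠ y ∧ ∃ e ∈ S, Ends s t y z e

theorem nb_comm {y z : V} (h : Nb s t S y z) : Nb s t S z y :=
  ⟨h.1.symm, h.2.imp fun _ h => ⟨h.1, ends_comm' h.2⟩⟩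

theorem Mq.tri (h : Mq s t S) {a b c : V} (h1 : Nb s t S a b) (h2 : Nb s t S b c)
    (h3 : Nb s t S c a) : False := by
  obtain ⟨n1, e1, m1, E1⟩ := h1
  obtain ⟨n2, e2, m2, E2⟩ := h2
  obtain ⟨n3, e3, m3, E3⟩ := h3
  exact h.notri n1.symm n3 n2.symm m1 m2 m3 E1 E2 E3

theorem Mq.four (h : Mq s t S) {a b c d : V} (hac : a ≠ c) (hbd : b ≠ d) (h1 : Nb s t S a b)
    (h2 : Nb s t S b c) (h3 : Nb s t S c d) (h4 : Nb s t S d a) : False := by
  obtain ⟨n1, e1, m1, E1⟩ := h1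
  obtain ⟨n2, e2, m2, E2⟩ := h2
  obtain ⟨n3, e3, m3, E3⟩ := h3
  obtain ⟨n4, e4, m4, E4⟩ := h4
  exact h.nofour n1.symm hac n4 n2.symm hbd n3.symm m1 m2 m3 m4 E1 E2 E3 E4

/-- the number of the vertices of odd degree -/
theorem Mq.odd18 (h : Mq s t S) : 18 ≤ (odd s t S).card := by
  have h1 : ¬ (odd s t S).card ≤ 16 := by
    intro hc
    rcases main16 s t S h.n1 hc with h2 | h2
    · exact h.nz h2
    · exact h.pq h2
  have h2 := parity s t S (fun _ => true)
  have h3 : cut s t S (fun _ => true) = ∅ := by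
    unfold cut
    rw [Finset.filter_eq_empty_iff]
    intro x _ hx
    exact hx rfl
  rw [h3, card_empty] at h2
  have h4 : (odd s t S).filter (fun _ => (true : Bool) = true) = odd s t S := by
    rw [Finset.filter_eq_self]
    intro x _
    rfl
  rw [h4] at h2
  omega

/-- the number of the edges at a vertex and the number of its neighbours -/
theorem Mq.cut_nb (h : Mq s t S) (y : V) [DecidablePred (Nb s t S y)] :
    (cut s t S (fun u => decide (u = y))).card = (univ.filter (Nb s t S y)).card := by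
  classical
  have hends : ∀ e ∈ cut s t S (fun u => decide (u = y)), ∃ z, z ≠ y ∧ Ends s t y z e := by
    intro e he
    have h2 := (mem_filter.1 he).2
    by_cases h3 : s e = y
    · refine ⟨t e, fun h4 => h2 (by simp [h3, h4]), Or.inl ⟨h3, rfl⟩⟩
    · by_cases h4 : t e = y
      · exact ⟨s e, h3, Or.inr ⟨rfl, h4⟩⟩
      · exact absurd (by simp [h3, h4]) h2
  have : Nonempty V := ⟨y⟩
  choose! z hz hE using hends
  refine card_bij (fun e _ => z e) ?_ ?_ ?_
  · intro e he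
    exact mem_filter.2 ⟨mem_univ _, hz e he, e, (mem_filter.1 he).1, hE e he⟩
  · intro e he e' he' hee
    have h1 := hE e he
    have h2 := hE e' he'
    rw [← hee] at h2
    exact h.nopar (Ne.symm (hz e he)) (mem_filter.1 he).1 (mem_filter.1 he').1 h1 h2
  · intro w hw
    obtain ⟨-, h1, e, h2, h3⟩ := mem_filter.1 hw
    have he : e ∈ cut s t S (fun u => decide (u = y)) := by
      refine mem_filter.2 ⟨h2, ?_⟩
      rcases h3 with ⟨h4, h5⟩ | ⟨h4, h5⟩ <;> simp [h4, h5, h1]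
    refine ⟨e, he, ?_⟩
    have h6 := hE e he
    have h7 := hz e he
    rcases h3 with ⟨h4, h5⟩ | ⟨h4, h5⟩ <;> rcases h6 with ⟨h8, h9⟩ | ⟨h8, h9⟩
    · rw [← h9, h5]
    · exact absurd (h8.symm.trans h4) h7
    · exact absurd (h9.symm.trans h5) h7
    · rw [← h8, h4]

theorem Mq.odd_nb (h : Mq s t S) (y : V) [DecidablePred (Nb s t S y)] :
    y ∈ odd s t S ↔ (univ.filter (Nb s t S y)).card % 2 = 1 := by
  rw [odd_iff_cut, h.cut_nb y]

theorem Mq.nb_ne_one (h : Mq s t S) (y : V) [DecidablePred (Nb s t S y)] :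
    (univ.filter (Nb s t S y)).card ≠ 1 := by
  rw [← h.cut_nb y]
  exact h.n1 _

/-- there is no vertex with exactly two neighbours -/
theorem Mq.nb_ne_two (h : Mq s t S) (y : V) [DecidablePred (Nb s t S y)] :
    (univ.filter (Nb s t S y)).card ≠ 2 := by
  classical
  rw [← h.cut_nb y]
  intro h2
  obtain ⟨e, e', hee, hcut⟩ := card_eq_two.1 h2
  have he : e ∈ cut s t S (fun u => decide (u = y)) := by rw [hcut]; simp
  have h3 := (mem_filter.1 he)
  have : ∃ a, y ≠ a ∧ Ends s t y a e := by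
    by_cases h4 : s e = y
    · refine ⟨t e, fun h5 => h3.2 (by simp [h4, ← h5]), Or.inl ⟨h4, rfl⟩⟩
    · by_cases h5 : t e = y
      · exact ⟨s e, Ne.symm h4, Or.inr ⟨rfl, h5⟩⟩
      · exact absurd (by simp [h4, h5]) h3.2
  obtain ⟨a, hya, hE⟩ := this
  refine h.nz (con2 s t S h3.1 hE hya hee hcut (fun v => if v = y then a else v) (by simp)
    (fun v hv => by simp [hv]) ?_)
  refine h.mn (fun v => if v = y then a else v) ⟨e, h3.1, ends_ne hE hya, ?_⟩
  rcases hE with ⟨h4, h5⟩ | ⟨h4, h5⟩ <;> simp [h4, h5, hya.symm]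

end

end Pool.Agent.R890.FF
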