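import Pool.Agent.R890.FF.Alg
import Pool.Agent.TH497.BF.Six

set_option autoImplicit false
set_option linter.unusedSectionVars false

/-!
# Values of weight four in the even vectors with six coordinates
-/

namespace Pool.Agent.R890.FF

open Finset Pool.Agent.TH362.TF
open Pool.Agent.TH497.BF (G Ag inA algAg)

/-- the codes of the complements of pairs of perfect matchings of the Petersen graph -/
def tabBF : Fin 10 → Fin 10 → ℕ :=
  ![![28, 28, 28, 28, 19, 15, 28, 28, 28, 28], ![28, 28, 11, 28, 28, 28, 23, 28, 28, 28],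
    ![28, 11, 28, 22, 28, 28, 28, 29, 28, 28], ![28, 28, 22, 28, 13, 28, 28, 28, 27, 28],
    ![19, 28, 28, 13, 28, 28, 28, 28, 28, 30], ![15, 28, 28, 28, 28, 28, 28, 26, 21, 28],
    ![28, 23, 28, 28, 28, 28, 28, 28, 14, 25], ![28, 28, 29, 28, 28, 26, 28, 28, 28, 7],
    ![28, 28, 28, 27, 28, 21, 14, 28, 28, 28], ![28, 28, 28, 28, 30, 28, 25, 7, 28, 28]]

theorem tab_lt : ∀ k l, tabBF k l < 32 := by decide

theorem tab_A : ∀ k l, inA (tabBF k l) = true := by decide

theorem tab_sym : ∀ k l, tabBF k l = tabBF l k := by decide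

theorem tab_sum : ∀ k, tabBF k (nb k 0) ^^^ tabBF k (nb k 1) ^^^ tabBF k (nb k 2) = 0 := by decide

/-- the flow of the Petersen graph -/
theorem petBF : Pet Ag (fun k l => (⟨tabBF k l, tab_lt k l⟩ : G)) where
  sym k l := G.ext' (tab_sym k l)
  al k l := tab_A k l
  sum k := G.ext' (tab_sum k)

/-- the embedding of the group of order four -/
def embBF : F →+ G where
  toFun x := ⟨(if x.1 = 1 then 28 else 0) ^^^ (if x.2 = 1 then 19 else 0), by
    revert x; decide⟩
  map_zero' := by
    apply G.ext'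
    decide
  map_add' x y := by
    apply G.ext'
    rw [G.v_add]
    revert x y
    decide

theorem emb_A : ∀ x : F, x ≠ 0 → Ag (embBF x) := by
  unfold Ag
  decide

theorem n1_of_br {V E : Type} [Fintype V] [DecidableEq V] [Fintype E] [DecidableEq E]
    {s t : E → V} (h : Pool.Agent.TH676.A.Br s t ∅ ∅) : N1 s t univ := by
  intro x
  have h1 := h (univ.filter (fun v => x v = true)) (disjoint_empty_right _)
  rw [sdiff_empty] at h1
  have h2 : cut s t univ x = Pool.Agent.TH676.A.crs s t (univ.filter (fun v => x v = true)) := by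
    ext e
    rw [Pool.Agent.TH676.A.mem_crs]
    simp only [cut, mem_filter, mem_univ, true_and]
    cases x (s e) <;> cases x (t e) <;> simp
  rw [h2]
  exact h1

/-- six even subgraphs for graphs with a vertex cover with at most nine vertices -/
theorem bf_cover {V E : Type} [Fintype V] [DecidableEq V] [Fintype E] [DecidableEq E]
    (s t : E → V) (C : Finset V) (hB : Pool.Agent.TH676.A.Br s t ∅ ∅)
    (hC : ∀ e, s e ≠ t e → s e ∈ C ∨ t e ∈ C) (h9 : C.card ≤ 9) :
    Pool.Agent.TH676.A.FlowOn Ag s t ∅ ∅ :=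
  alg_cover algAg petBF ⟨embBF, emb_A⟩ s t C (n1_of_br hB) hC h9

end Pool.Agent.R890.FF
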