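import Pool.Agent.R890.FF.Cov
import Pool.Agent.TH362.TF.Str
import Pool.Agent.TH676.A.Cut

set_option autoImplicit false
set_option linter.unusedSectionVars false

/-!
# Flows with values in a symmetric set of a group of exponent two
-/

namespace Pool.Agent.R890.FF

open Finset Pool.Agent.TH362.TF Pool.Agent.TH362.TF.Str
open Pool.Agent.TH676.A (Alg Ex2 FlowOn bd crs nl mem_nl)

variable {V E : Type} [Fintype V] [DecidableEq V] [Fintype E] [DecidableEq E]
variable {Γ : Type} [AddCommGroup Γ] {A : Γ → Prop}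

/-- allowed values on the edges of the Petersen graph -/
structure Pet (A : Γ → Prop) (val : Fin 10 → Fin 10 → Γ) : Prop where
  sym : ∀ k l, val k l = val l k
  al : ∀ k l, A (val k l)
  sum : ∀ k, val k (nb k 0) + val k (nb k 1) + val k (nb k 2) = 0

theorem bd_eq (h2 : Ex2 Γ) (s t : E → V) (f g : E → Γ) (v : V)
    (h : ∀ e, (s e = v ∨ t e = v) → s e ≠ t e → f e = g e) : bd s t f v = bd s t g v := by
  unfold bd
  refine Finset.sum_congr rfl fun e _ => ?_
  by_cases h3 : s e = v <;> by_cases h4 : t e = v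
  · rw [if_pos h3, if_pos h4, if_pos h3, if_pos h4, h2, h2]
  · rw [if_pos h3, if_neg h4, if_pos h3, if_neg h4,
      h e (Or.inl h3) (fun h5 => h4 (h5.symm.trans h3))]
  · rw [if_neg h3, if_pos h4, if_neg h3, if_pos h4,
      h e (Or.inr h4) (fun h5 => h3 (h5.trans h4))]
  · rw [if_neg h3, if_neg h4, if_neg h3, if_neg h4]

theorem bd_hom {Γ' : Type} [AddCommGroup Γ'] (σ : Γ →+ Γ') (s t : E → V) (f : E → Γ) (v : V) :
    bd s t (fun e => σ (f e)) v = σ (bd s t f v) := by
  unfold bd
  rw [map_sum]
  refine Finset.sum_congr rfl fun e _ => ?_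
  rw [map_add]
  split_ifs <;> simp

/-- gluing along a Petersen quotient -/
theorem alg_pq (hA : Alg A) {val : Fin 10 → Fin 10 → Γ} (hv : Pet A val) {s t : E → V}
    {κ : V → Fin 10} (hκ : IsPQ s t univ κ)
    (hg : ∀ k, ∃ g : E → Γ, (∀ e, A (g e)) ∧ ∀ v, κ v = k → bd s t g v = 0) :
    FlowOn A s t ∅ ∅ := by
  classical
  choose g hg1 hg2 using hg
  have h1 : ∀ (k : Fin 10) (j : Fin 3), ∃ y, y ∈ (univ : Finset E) ∧ Joins κ s t k (nb k j) y := by
    intro k j
    obtain ⟨y, hy, hy'⟩ := hκ.2 k (nb k j) (padj_nb k j)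
    exact ⟨y, hy, hy'⟩
  choose e he using h1
  have hcut : ∀ k, cut s t univ (fun v => decide (κ v = k)) = univ.image (e k) := fun k =>
    cut_pq hκ k (e k) (he k)
  have hinj : ∀ k, Function.Injective (e k) := by
    intro k i j hij
    have h1 := (he k i).2
    rw [hij] at h1
    exact nb_inj k i j (joins_other (nb_ne k i).symm h1 (he k j).2)
  have hsum : ∀ k, g k (e k 0) + g k (e k 1) + g k (e k 2) = 0 := by
    intro k
    have h2 := Pool.Agent.TH676.A.sum_cut hA.two (src := s) (dst := t) (f := g k)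
      (Y := univ.filter (fun v => κ v = k)) (fun v hv => hg2 k v (mem_filter.1 hv).2)
    have h3 : crs s t (univ.filter (fun v => κ v = k)) =
        cut s t univ (fun v => decide (κ v = k)) := by
      ext x
      simp only [crs, cut, mem_filter, mem_univ, true_and]
      by_cases h4 : κ (s x) = k <;> by_cases h5 : κ (t x) = k <;> simp [h4, h5]
    rw [h3, hcut, Finset.sum_image (fun i _ j _ h => hinj k h), Fin.sum_univ_three] at h2
    exact h2
  have h3 : ∀ x y z : Γ, x + y + z = 0 → z = x + y := by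
    intro x y z h
    have h4 := hA.two z
    have h5 : z = x + y + (z + z) := by
      rw [← add_assoc, h, zero_add]
    rw [h5, h4, add_zero]
  have hσ : ∀ k, ∃ σ : Γ →+ Γ, (∀ x, A x → A (σ x)) ∧ σ (g k (e k 0)) = val k (nb k 0) ∧
      σ (g k (e k 1)) = val k (nb k 1) := by
    intro k
    refine hA.hom _ _ _ _ (hg1 k _) (hg1 k _) ?_ (hv.al _ _) (hv.al _ _) ?_
    · rw [← h3 _ _ _ (hsum k)]; exact hg1 k _
    · rw [← h3 _ _ _ (hv.sum k)]; exact hv.al _ _
  choose σ hσ1 hσ2 hσ3 using hσ
  have hσ4 : ∀ k j, σ k (g k (e k j)) = val k (nb k j) := by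
    intro k j
    have h4 : j = 0 ∨ j = 1 ∨ j = 2 := by
      revert j; decide
    rcases h4 with rfl | rfl | rfl
    · exact hσ2 k
    · exact hσ3 k
    · rw [h3 _ _ _ (hsum k), map_add, hσ2, hσ3, ← h3 _ _ _ (hv.sum k)]
  set f : E → Γ := fun x => if κ (s x) = κ (t x) then σ (κ (s x)) (g (κ (s x)) x)
    else val (κ (s x)) (κ (t x)) with hf
  have key : ∀ k x, (κ (s x) = k ∨ κ (t x) = k) → f x = σ k (g k x) := by
    intro k x hx
    by_cases h4 : κ (s x) = κ (t x)
    · have h5 : κ (s x) = k := by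
        rcases hx with h | h
        · exact h
        · exact h4.trans h
      simp only [hf]
      rw [if_pos h4, h5]
    · have h5 : x ∈ cut s t univ (fun v => decide (κ v = k)) := by
        simp only [cut, mem_filter, mem_univ, true_and]
        rcases hx with h | h
        · have : κ (t x) ≠ k := fun h' => h4 (h.trans h'.symm)
          simp [h, this]
        · have : κ (s x) ≠ k := fun h' => h4 (h'.trans h.symm)
          simp [h, this]
      rw [hcut, mem_image] at h5
      obtain ⟨j, -, hj⟩ := h5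
      simp only [hf]
      rw [if_neg h4, ← hj, hσ4]
      rcases (he k j).2 with ⟨h6, h7⟩ | ⟨h6, h7⟩
      · rw [h6, h7]
      · rw [h6, h7, hv.sym]
  refine ⟨f, fun v => ?_, fun x hx => absurd hx (notMem_empty x), fun x _ _ => ?_⟩
  · have h4 : bd s t f v = bd s t (fun x => σ (κ v) (g (κ v) x)) v := by
      refine bd_eq hA.two s t _ _ v fun x hx _ => key (κ v) x ?_
      rcases hx with h | h
      · exact Or.inl (congrArg κ h)
      · exact Or.inr (congrArg κ h)
    rw [h4, bd_hom, hg2 (κ v) v rfl, map_zero]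
  · simp only [hf]
    split_ifs
    · exact hσ1 _ _ (hg1 _ _)
    · exact hv.al _ _

theorem ex_pair : ∀ k : Fin 10, ∃ l m, padj l m = true ∧ l ≠ k ∧ m ≠ k ∧ l ≠ m := by decide

/-- classes of graphs which are closed under the identification of vertices -/
theorem alg_class (hA : Alg A) {val : Fin 10 → Fin 10 → Γ} (hv : Pet A val)
    (h4 : ∃ σ : F →+ Γ, ∀ x, x ≠ 0 → A (σ x))
    {Cl : (E → V) → (E → V) → Prop}
    (hC1 : ∀ s t (π : V → V), Cl s t → Cl (fun e => π (s e)) (fun e => π (t e)))
    (hC2 : ∀ s t, Cl s t → N1 s t univ → NZ s t univ ∨ PQ s t univ) :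
    ∀ (n : ℕ) (s t : E → V), (nl s t).card = n → Cl s t → N1 s t univ → FlowOn A s t ∅ ∅ := by
  classical
  intro n
  induction n using Nat.strong_induction_on with
  | _ n ih =>
    intro s t hn hCl hN
    rcases hC2 s t hCl hN with ⟨φ, h1, h2⟩ | ⟨κ, hκ⟩
    · obtain ⟨σ, hσ⟩ := h4
      refine ⟨fun e => σ (φ e), fun v => ?_, fun x hx => absurd hx (notMem_empty x),
        fun x _ _ => hσ _ (h1 x (mem_univ x))⟩
      have h3 : bd s t (fun e => σ (φ e)) v = σ (∑ e, ((if s e = v then φ e else 0) +
          (if t e = v then φ e else 0))) := by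
        unfold bd
        rw [map_sum]
        refine Finset.sum_congr rfl fun e _ => ?_
        rw [map_add]
        split_ifs <;> simp
      rw [h3]
      have h5 : (∑ e, ((if s e = v then φ e else 0) + (if t e = v then φ e else 0))) = 0 := h2 v
      rw [h5, map_zero]
    · refine alg_pq hA hv hκ fun k => ?_
      obtain ⟨l, m, hlm, hlk, hmk, hne⟩ := ex_pair k
      obtain ⟨e0, -, he0⟩ := hκ.2 l m hlm
      have hz : κ (s e0) ≠ k ∧ κ (t e0) ≠ k ∧ κ (s e0) ≠ κ (t e0) := by
        rcases he0 with ⟨h6, h7⟩ | ⟨h6, h7⟩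
        · rw [h6, h7]; exact ⟨hlk, hmk, hne⟩
        · rw [h6, h7]; exact ⟨hmk, hlk, hne.symm⟩
      set z := s e0 with hzd
      set π : V → V := fun v => if κ v = k then v else z with hπ
      have hlt : (nl (fun e => π (s e)) (fun e => π (t e))).card < n := by
        rw [← hn]
        refine card_lt_card ⟨?_, ?_⟩
        · intro x hx
          rw [mem_nl] at hx ⊢
          exact fun h => hx (by simp only [h])
        · intro h
          have h5 : e0 ∈ nl s t := by
            rw [mem_nl]
            exact fun h6 => hz.2.2 (by rw [hzd, h6])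
          have h6 := h h5
          rw [mem_nl] at h6
          apply h6
          simp only [hπ]
          rw [if_neg hz.2.1, if_neg hz.1]
      obtain ⟨g, g1, -, g2⟩ := ih _ hlt _ _ rfl (hC1 s t π hCl)
        (quot_n1 (S' := univ) (f := π) (Subset.refl _) (fun e h h' => absurd h h') hN)
      refine ⟨g, fun e => g2 e (notMem_empty e) (notMem_empty e), fun v hvk => ?_⟩
      rw [← g1 v]
      have hiff : ∀ x : V, π x = v ↔ x = v := by
        intro x
        simp only [hπ]
        by_cases h6 : κ x = k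
        · rw [if_pos h6]
        · rw [if_neg h6]
          constructor
          · intro h7
            exact absurd (h7 ▸ hvk) hz.1
          · rintro rfl
            exact absurd hvk h6
      unfold bd
      refine Finset.sum_congr rfl fun e _ => ?_
      simp only [hiff]

/-- **vertex covers with at most nine vertices** and flows with allowed values -/
theorem alg_cover (hA : Alg A) {val : Fin 10 → Fin 10 → Γ} (hv : Pet A val)
    (h4 : ∃ σ : F →+ Γ, ∀ x, x ≠ 0 → A (σ x)) (s t : E → V) (C : Finset V)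
    (hN : N1 s t univ) (hC : ∀ e, s e ≠ t e → s e ∈ C ∨ t e ∈ C) (h9 : C.card ≤ 9) :
    FlowOn A s t ∅ ∅ := by
  classical
  refine alg_class hA hv h4 (Cl := fun s t => ∃ C : Finset V, C.card ≤ 9 ∧
    ∀ e, s e ≠ t e → s e ∈ C ∨ t e ∈ C) ?_ ?_ _ s t rfl ⟨C, h9, hC⟩ hN
  · rintro s t π ⟨C, h1, h2⟩
    refine ⟨C.image π, card_image_le.trans h1, fun e he => ?_⟩
    rcases h2 e (fun h => he (congrArg π h)) with h | h
    · exact Or.inl (mem_image_of_mem _ h)
    · exact Or.inr (mem_image_of_mem _ h)
  · rintro s t ⟨C, h1, h2⟩ h3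
    exact cover9 s t univ C h3 (fun e _ he => h2 e he) h1

end Pool.Agent.R890.FF
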