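import Pool.Agent.Y642.RN.A

set_option autoImplicit false
set_option linter.unusedSectionVars false

/-!
# From flows or Petersen quotients of graphs to cographic 2-blocks
-/

namespace Pool.Agent.R890.FF

open Finset

/-- the cographic matroid of a graph with a flow or a Petersen quotient -/
theorem blk1 {n : ℕ} {S : Set (Fin n → ZMod 2)} {V E : Type} [Fintype V] [DecidableEq V]
    [Fintype E] [DecidableEq E] {src dst : E → V} {vec : E → Fin n → ZMod 2}
    (hv : TH676.Blk.RepCo src dst vec) (hr : Set.range vec = S)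
    (hd : TH362.TF.N1 src dst univ → TH362.TF.NZ src dst univ ∨ TH362.TF.PQ src dst univ)
    (hz : (0 : Fin n → ZMod 2) ∉ S)
    (hL : ¬ ∃ L : (Fin n → ZMod 2) →ₗ[ZMod 2] (Fin 2 → ZMod 2), ∀ s ∈ S, L s ≠ 0) :
    ∃ t : Fin 15 → Fin n → ZMod 2, Set.range t ⊆ S ∧ Function.Injective t ∧
      ∀ x : Fin 15 → ZMod 2, ∑ k, x k • t k = 0 ↔ x ∈ TH676.Blk.PC := by
  classical
  have h0 : ∀ e, vec e ≠ 0 := by
    intro e he
    apply hz
    rw [← hr, ← he]
    exact ⟨e, rfl⟩
  have hbr := hv.br h0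
  have hN1 := Y642.RN.n1_of hbr
  have hnz : ¬ TH499.TF.NZ src dst := by
    intro h
    obtain ⟨L, hL'⟩ := hv.map h
    apply hL
    refine ⟨L, fun s hs => ?_⟩
    rw [← hr] at hs
    obtain ⟨e, rfl⟩ := hs
    exact hL' e
  have hPM : TH362.Multi.ContractsToPetersen src dst := by
    rcases hd hN1 with h | h
    · exact absurd (Y642.RN.nz_of h) hnz
    · exact TH362.TF.contracts src dst hN1 h
  obtain ⟨ed, hx⟩ := Y642.RN.restr hv hPM
  refine ⟨fun k => vec (ed k), ?_, ?_, hx⟩
  · rintro _ ⟨k, rfl⟩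
    rw [← hr]
    exact ⟨ed k, rfl⟩
  · intro k l hkl
    by_contra hne
    apply TH676.Blk.pair_not_mem k l hne
    rw [← hx]
    simp only [Pi.add_apply, add_smul]
    rw [Finset.sum_add_distrib]
    simp only [Pi.single_apply, ite_smul, one_smul, zero_smul, Finset.sum_ite_eq',
      Finset.mem_univ, if_true]
    have h3 : vec (ed k) = vec (ed l) := hkl
    rw [h3]
    funext i
    exact CharTwo.add_self_eq_zero _

/-- tangential blocks which contain the cographic matroid of the Petersen graph -/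
theorem blk2 {n : ℕ} {S : Set (Fin n → ZMod 2)}
    (htan : ∀ C T : Set (Fin n → ZMod 2), C ⊆ S → T ⊆ S → T ≠ S →
      (∀ t ∈ T, t ∉ Submodule.span (ZMod 2) C) →
      ∃ L : (Fin n → ZMod 2) →ₗ[ZMod 2] (Fin 2 → ZMod 2),
        (∀ c ∈ C, L c = 0) ∧ ∀ t ∈ T, L t ≠ 0)
    {t : Fin 15 → Fin n → ZMod 2} (ht : Set.range t ⊆ S)
    (hx : ∀ x : Fin 15 → ZMod 2, ∑ k, x k • t k = 0 ↔ x ∈ TH676.Blk.PC) :
    ∃ ψ : (Fin 15 → ZMod 2) →ₗ[ZMod 2] (Fin n → ZMod 2),
      LinearMap.ker ψ = TH676.Blk.PC ∧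
      ⇑ψ '' Set.range (fun k : Fin 15 => (Pi.single k (1 : ZMod 2) : Fin 15 → ZMod 2)) = S := by
  classical
  have hsum1 : ∀ k, ∑ m, (Pi.single k 1 : Fin 15 → ZMod 2) m • t m = t k := by
    intro k
    simp only [Pi.single_apply, ite_smul, one_smul, zero_smul, Finset.sum_ite_eq',
      Finset.mem_univ, if_true]
  have hsp : ∀ k, t k ∉ Submodule.span (ZMod 2) (∅ : Set (Fin n → ZMod 2)) := by
    intro k hk
    rw [Submodule.span_empty, Submodule.mem_bot] at hk
    apply TH676.Blk.single_not_mem k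
    rw [← hx, hsum1]
    exact hk
  have hTS : Set.range t = S := by
    by_contra hne
    obtain ⟨L, _, hL2⟩ := htan ∅ (Set.range t) (Set.empty_subset _) ht hne (by
      rintro _ ⟨k, rfl⟩
      exact hsp k)
    obtain ⟨k, hk⟩ := TH676.Blk.pet_flow (fun k => ((L (t k)) 0, (L (t k)) 1)) (by
      intro x hxP
      have h4 : L (∑ k, x k • t k) = 0 := by
        rw [(hx x).mpr hxP, map_zero]
      rw [map_sum] at h4
      simp only [map_smul] at h4
      have h5 := congrFun h4 0
      have h6 := congrFun h4 1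
      rw [Finset.sum_apply] at h5 h6
      refine Prod.ext ?_ ?_
      · rw [Prod.fst_sum]
        exact h5
      · rw [Prod.snd_sum]
        exact h6)
    apply hL2 (t k) ⟨k, rfl⟩
    funext i
    fin_cases i
    · exact congrArg Prod.fst hk
    · exact congrArg Prod.snd hk
  refine ⟨Fintype.linearCombination (ZMod 2) t, ?_, ?_⟩
  · ext x
    rw [LinearMap.mem_ker, Fintype.linearCombination_apply, ← hx]
  · ext s
    rw [← hTS]
    constructor
    · rintro ⟨_, ⟨k, rfl⟩, rfl⟩
      refine ⟨k, ?_⟩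
      rw [Fintype.linearCombination_apply]
      exact (hsum1 k).symm
    · rintro ⟨k, rfl⟩
      refine ⟨_, ⟨k, rfl⟩, ?_⟩
      rw [Fintype.linearCombination_apply]
      exact hsum1 k

end Pool.Agent.R890.FF
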