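import Pool.Agent.R890.FF.Min
import Mathlib.Combinatorics.Hall.Basic

set_option autoImplicit false
set_option linter.unusedSectionVars false
set_option synthInstance.maxHeartbeats 400000
set_option synthInstance.maxSize 2048

/-!
# Graphs with a vertex cover with at most nine vertices
-/

namespace Pool.Agent.R890.FF

open Finset Pool.Agent.TH362.TF Pool.Agent.TH362.TF.Four

variable {V E : Type} [Fintype V] [DecidableEq V] [DecidableEq E]

/-- a system of distinct representatives in a regular situation -/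
theorem match_reg (C : Finset V) (T : V → Finset V) (d : ℕ) (hd : 1 ≤ d)
    (h1 : ∀ c ∈ C, (T c).card = d) (h2 : ∀ i, (C.filter (fun c => i ∈ T c)).card ≤ d) :
    ∃ m : V → V, (∀ c ∈ C, m c ∈ T c) ∧ ∀ c ∈ C, ∀ c' ∈ C, m c = m c' → c = c' := by
  classical
  have hall : ∀ A : Finset C, A.card ≤ (A.biUnion (fun c => T c.1)).card := by
    intro A
    have e1 : d * A.card = ∑ c ∈ A, (T c.1).card := by
      rw [Finset.sum_congr rfl (fun c _ => h1 c.1 c.2), Finset.sum_const, smul_eq_mul, mul_comm]
    have e2 : ∑ c ∈ A, (T c.1).card =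
        ∑ i ∈ A.biUnion (fun c => T c.1), (A.filter (fun c => i ∈ T c.1)).card := by
      have := Finset.sum_card_bipartiteAbove_eq_sum_card_bipartiteBelow
        (s := A) (t := A.biUnion (fun c => T c.1)) (fun c i => i ∈ T c.1)
      unfold bipartiteAbove bipartiteBelow at this
      rw [← this]
      refine Finset.sum_congr rfl fun c hc => ?_
      congr 1
      ext i
      rw [mem_filter, mem_biUnion]
      exact ⟨fun h => ⟨⟨c, hc, h⟩, h⟩, fun h => h.2⟩
    have e3 : ∀ i ∈ A.biUnion (fun c => T c.1), (A.filter (fun c => i ∈ T c.1)).card ≤ d := by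
      intro i _
      refine (card_le_card_of_injOn (fun c => c.1) ?_ ?_).trans (h2 i)
      · intro c hc
        rw [mem_coe, mem_filter] at hc ⊢
        exact ⟨c.2, hc.2⟩
      · intro c _ c' _ h
        exact Subtype.ext h
    have e4 := Finset.sum_le_card_nsmul _ _ _ e3
    rw [smul_eq_mul, ← e2, ← e1, mul_comm d] at e4
    exact Nat.le_of_mul_le_mul_right e4 hd
  obtain ⟨f, hf, hf'⟩ := (Finset.all_card_le_biUnion_card_iff_exists_injective
    (fun c : C => T c.1)).1 hall
  refine ⟨fun v => if h : v ∈ C then f ⟨v, h⟩ else v, fun c hc => ?_, fun c hc c' hc' h => ?_⟩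
  · simp only [hc, dif_pos]
    exact hf' ⟨c, hc⟩
  · simp only [hc, hc', dif_pos] at h
    exact congrArg Subtype.val (hf h)

section
variable {s t : E → V} {S : Finset E}

/-- boundary values of functions which depend on the ends only -/
theorem Mq.sum_nb (h : Mq s t S) (y : V) [DecidablePred (Nb s t S y)] (col : V → V → F)
    (hc : ∀ u v, col u v = col v u) (α : F) :
    B s t S (fun e => if s e = t e then α else col (s e) (t e)) y =
      ∑ z ∈ univ.filter (Nb s t S y), col y z := by
  classical
  rw [B_cut]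
  have hends : ∀ e ∈ cut s t S (fun u => decide (u = y)), ∃ z, z ≠ y ∧ Ends s t y z e := by
    intro e he
    have h2 := (mem_filter.1 he).2
    by_cases h3 : s e = y
    · refine ⟨t e, fun h4 => h2 (by simp [h3, h4]), Or.inl ⟨h3, rfl⟩⟩
    · by_cases h4 : t e = y
      · exact ⟨s e, h3, Or.inr ⟨rfl, h4⟩⟩
      · exact absurd (by simp [h3, h4]) h2
  have : Nonempty V := ⟨y⟩
  choose! z hz hE using hends
  refine Finset.sum_bij (fun e _ => z e) ?_ ?_ ?_ ?_
  · intro e he
    exact mem_filter.2 ⟨mem_univ _, hz e he, e, (mem_filter.1 he).1, hE e he⟩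
  · intro e he e' he' hee
    have h1 := hE e he
    have h2 := hE e' he'
    rw [← hee] at h2
    exact h.nopar (Ne.symm (hz e he)) (mem_filter.1 he).1 (mem_filter.1 he').1 h1 h2
  · intro w hw
    obtain ⟨-, h1, e, h2, h3⟩ := mem_filter.1 hw
    have he : e ∈ cut s t S (fun u => decide (u = y)) := by
      refine mem_filter.2 ⟨h2, ?_⟩
      rcases h3 with ⟨h4, h5⟩ | ⟨h4, h5⟩ <;> simp [h4, h5, h1]
    refine ⟨e, he, ?_⟩
    have h6 := hE e he
    have h7 := hz e he
    rcases h3 with ⟨h4, h5⟩ | ⟨h4, h5⟩ <;> rcases h6 with ⟨h8, h9⟩ | ⟨h8, h9⟩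
    · rw [← h9, h5]
    · exact absurd (h8.symm.trans h4) h7
    · exact absurd (h9.symm.trans h5) h7
    · rw [← h8, h4]
  · intro e he
    have h6 := hE e he
    have h7 := hz e he
    rcases h6 with ⟨h8, h9⟩ | ⟨h8, h9⟩
    · rw [h8, h9, if_neg (Ne.symm h7)]
    · rw [h8, h9, if_neg h7, hc]

/-- the sum of the neighbours of the outer neighbours -/
theorem Mq.around (h : Mq s t S) [∀ y, DecidablePred (Nb s t S y)] {C : Finset V}
    (hC : ∀ e ∈ S, s e ≠ t e → s e ∈ C ∨ t e ∈ C) {c : V} (hc : c ∈ C) :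
    ∑ i ∈ (univ.filter (Nb s t S c)) \ C, ((univ.filter (Nb s t S i)).card - 1) +
      ((univ.filter (Nb s t S c)) ∩ C).card + 1 ≤ C.card := by
  classical
  have hmem : ∀ y w : V, w ∈ univ.filter (Nb s t S y) ↔ Nb s t S y w := fun y w => by simp
  have hout : ∀ i, i ∉ C → ∀ w, Nb s t S i w → w ∈ C := by
    rintro i hi w ⟨hne, e, he, hE⟩
    rcases hE with ⟨h4, h5⟩ | ⟨h4, h5⟩
    · rcases hC e he (by rw [h4, h5]; exact hne.symm) with h6 | h6
      · exact absurd (h4 ▸ h6) hi
      · exact h5 ▸ h6
    · rcases hC e he (by rw [h4, h5]; exact hne) with h6 | h6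
      · exact h4 ▸ h6
      · exact absurd (h5 ▸ h6) hi
  set A := (univ.filter (Nb s t S c)) \ C with hA
  set W : V → Finset V := fun i => (univ.filter (Nb s t S i)).erase c with hW
  have hAm : ∀ i ∈ A, Nb s t S c i ∧ i ∉ C := by
    intro i hi
    rw [hA, mem_sdiff, hmem] at hi
    exact hi
  have h1 : ∀ i ∈ A, (W i).card = (univ.filter (Nb s t S i)).card - 1 := by
    intro i hi
    exact card_erase_of_mem ((hmem i c).2 (nb_comm (hAm i hi).1))
  have hd : ∀ i ∈ A, ∀ j ∈ A, i ≠ j → Disjoint (W i) (W j) := by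
    intro i hi j hj hij
    rw [disjoint_left]
    intro w hw hw'
    rw [hW, mem_erase, hmem] at hw hw'
    exact h.four (Ne.symm hw.1) hij (hAm i hi).1 hw.2 (nb_comm hw'.2) (nb_comm (hAm j hj).1)
  have h2 : (A.biUnion W).card = ∑ i ∈ A, ((univ.filter (Nb s t S i)).card - 1) := by
    rw [card_biUnion hd]
    exact Finset.sum_congr rfl h1
  have h3 : Disjoint (A.biUnion W) ((univ.filter (Nb s t S c)) ∩ C) := by
    rw [disjoint_left]
    intro w hw hw'
    rw [mem_biUnion] at hw
    obtain ⟨i, hi, hw⟩ := hw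
    rw [hW, mem_erase, hmem] at hw
    rw [mem_inter, hmem] at hw'
    exact h.tri (hAm i hi).1 hw.2 (nb_comm hw'.1)
  have h4 : (A.biUnion W) ∪ ((univ.filter (Nb s t S c)) ∩ C) ⊆ C.erase c := by
    intro w hw
    rw [mem_union] at hw
    rcases hw with hw | hw
    · rw [mem_biUnion] at hw
      obtain ⟨i, hi, hw⟩ := hw
      rw [hW, mem_erase, hmem] at hw
      exact mem_erase.2 ⟨hw.1, hout i (hAm i hi).2 w hw.2⟩
    · rw [mem_inter, hmem] at hw
      exact mem_erase.2 ⟨hw.1.1, hw.2⟩
  have h5 := card_le_card h4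
  rw [card_union_of_disjoint h3, h2, card_erase_of_mem hc] at h5
  have h6 : 1 ≤ C.card := card_pos.2 ⟨c, hc⟩
  omega

/-- **vertex covers with at most nine vertices**: the minimal quotient -/
theorem Mq.cover (h : Mq s t S) {C : Finset V} (hC : ∀ e ∈ S, s e ≠ t e → s e ∈ C ∨ t e ∈ C)
    (h9 : C.card ≤ 9) : False := by
  classical
  have h18 := h.odd18
  have hmem : ∀ y w : V, w ∈ univ.filter (Nb s t S y) ↔ Nb s t S y w := fun y w => by simp
  have hout : ∀ i, i ∉ C → ∀ w, Nb s t S i w → w ∈ C := by
    rintro i hi w ⟨hne, e, he, hE⟩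
    rcases hE with ⟨h4, h5⟩ | ⟨h4, h5⟩
    · rcases hC e he (by rw [h4, h5]; exact hne.symm) with h6 | h6
      · exact absurd (h4 ▸ h6) hi
      · exact h5 ▸ h6
    · rcases hC e he (by rw [h4, h5]; exact hne) with h6 | h6
      · exact h4 ▸ h6
      · exact absurd (h5 ▸ h6) hi
  set N : V → Finset V := fun y => univ.filter (Nb s t S y) with hN
  have hN3 : ∀ y w, Nb s t S y w → 3 ≤ (N y).card := by
    intro y w hw
    have h1 : 0 < (N y).card := card_pos.2 ⟨w, (hmem y w).2 hw⟩
    have h2 : (N y).card ≠ 1 := h.nb_ne_one y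
    have h3 : (N y).card ≠ 2 := h.nb_ne_two y
    omega
  set O := odd s t S with hO
  set I := O \ C with hI
  have hIN : ∀ i ∈ I, 3 ≤ (N i).card := by
    intro i hi
    rw [hI, mem_sdiff, hO, h.odd_nb i] at hi
    have h2 : (N i).card ≠ 1 := h.nb_ne_one i
    have h3 : (N i).card % 2 = 1 := hi.1
    omega
  -- local inequality
  have hloc : ∀ c ∈ C, 2 * (N c \ C).card + (N c ∩ C).card + 1 ≤ C.card := by
    intro c hc
    have h1 : ∑ i ∈ N c \ C, ((N i).card - 1) + (N c ∩ C).card + 1 ≤ C.card := h.around hC hc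
    have h2 : ∑ i ∈ N c \ C, ((N i).card - 1) ≥ ∑ i ∈ N c \ C, 2 := by
      refine Finset.sum_le_sum fun i hi => ?_
      rw [mem_sdiff, hmem] at hi
      have := hN3 i c (nb_comm hi.1)
      omega
    rw [Finset.sum_const, smul_eq_mul] at h2
    omega
  have hsplit : ∀ c, (N c).card = (N c \ C).card + (N c ∩ C).card := fun c =>
    (card_sdiff_add_card_inter _ _).symm
  have hAO : ∀ c, (N c ∩ I).card ≤ (N c \ C).card := by
    intro c
    refine card_le_card fun i hi => ?_
    rw [mem_inter, hI, mem_sdiff] at hi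
    exact mem_sdiff.2 ⟨hi.1, hi.2.2⟩
  have hper : ∀ c ∈ C, (if c ∈ O then 3 else 0) + (N c ∩ I).card ≤ 6 := by
    intro c hc
    have h1 := hloc c hc
    have h2 := hsplit c
    have h3 := hAO c
    split_ifs with h4
    · rw [hO, h.odd_nb c] at h4
      have h5 : (N c).card % 2 = 1 := h4
      omega
    · omega
  have hdc : ∑ c ∈ C, (N c ∩ I).card = ∑ i ∈ I, (N i).card := by
    have e1 := Finset.sum_card_bipartiteAbove_eq_sum_card_bipartiteBelow
      (s := C) (t := I) (fun c i => Nb s t S c i)
    unfold bipartiteAbove bipartiteBelow at e1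
    have e2 : ∀ c ∈ C, (N c ∩ I).card = (I.filter (fun i => Nb s t S c i)).card := by
      intro c _
      congr 1
      ext i
      rw [mem_inter, hmem, mem_filter, and_comm]
    have e3 : ∀ i ∈ I, (N i).card = (C.filter (fun c => Nb s t S c i)).card := by
      intro i hi
      congr 1
      ext c
      rw [hmem, mem_filter]
      rw [hI, mem_sdiff] at hi
      exact ⟨fun h' => ⟨hout i hi.2 c h', nb_comm h'⟩, fun h' => nb_comm h'.2⟩
    rw [Finset.sum_congr rfl e2, Finset.sum_congr rfl e3, e1]
  have hI3 : 3 * I.card ≤ ∑ i ∈ I, (N i).card := by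
    have := Finset.card_nsmul_le_sum I _ _ hIN
    rw [smul_eq_mul] at this
    omega
  have hOC : O.card = (O ∩ C).card + I.card := by
    have := card_sdiff_add_card_inter O C
    rw [← hI] at this
    omega
  have hOs : ∑ c ∈ C, (if c ∈ O then 3 else 0) = 3 * (O ∩ C).card := by
    rw [← Finset.sum_filter, Finset.sum_const, smul_eq_mul, mul_comm]
    congr 2
    ext c
    rw [mem_filter, mem_inter, and_comm]
  have hsum : ∑ c ∈ C, ((if c ∈ O then 3 else 0) + (N c ∩ I).card) =
      3 * (O ∩ C).card + ∑ i ∈ I, (N i).card := by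
    rw [Finset.sum_add_distrib, hOs, hdc]
  have hle := Finset.sum_le_card_nsmul C _ _ hper
  rw [hsum, smul_eq_mul] at hle
  have hC9 : C.card = 9 := by omega
  have hI9 : ∑ i ∈ I, (N i).card = 3 * I.card := by omega
  have hO18 : O.card = 18 := by omega
  -- equality everywhere
  have heq : ∀ c ∈ C, (if c ∈ O then 3 else 0) + (N c ∩ I).card = 6 := by
    intro c hc
    by_contra hne
    have h1 := hper c hc
    have h2 : ∑ c ∈ C, ((if c ∈ O then 3 else 0) + (N c ∩ I).card) < ∑ c ∈ C, 6 :=
      Finset.sum_lt_sum hper ⟨c, hc, by omega⟩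
    rw [hsum, Finset.sum_const, smul_eq_mul] at h2
    omega
  have hcO : ∀ c ∈ C, c ∈ O := by
    intro c hc
    have h1 := heq c hc
    have h2 := hloc c hc
    have h3 := hAO c
    by_contra h4
    rw [if_neg h4] at h1
    omega
  have hA3 : ∀ c ∈ C, (N c \ C).card = 3 ∧ N c ∩ I = N c \ C := by
    intro c hc
    have h1 := heq c hc
    rw [if_pos (hcO c hc)] at h1
    have h2 := hloc c hc
    have h3 := hAO c
    have h4 := hsplit c
    have h5 : (N c).card % 2 = 1 := by
      have := hcO c hc
      rwa [hO, h.odd_nb c] at this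
    have h6 : (N c \ C).card = 3 := by omega
    refine ⟨h6, eq_of_subset_of_card_le ?_ (by omega)⟩
    intro i hi
    rw [mem_inter, hI, mem_sdiff] at hi
    exact mem_sdiff.2 ⟨hi.1, hi.2.2⟩
  have hIN3 : ∀ i ∈ I, (N i).card = 3 := by
    intro i hi
    by_contra hne
    have h1 := hIN i hi
    have h2 : ∑ i ∈ I, 3 < ∑ i ∈ I, (N i).card :=
      Finset.sum_lt_sum hIN ⟨i, hi, by omega⟩
    rw [Finset.sum_const, smul_eq_mul] at h2
    omega
  have hIc : I.card = 9 := by
    have h1 : O ∩ C = C := by
      rw [inter_eq_right]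
      exact hcO
    rw [h1] at hOC
    omega
  have hcc : ∀ c ∈ C, (N c ∩ C).card % 2 = 0 := by
    intro c hc
    have h4 := hsplit c
    have h5 : (N c).card % 2 = 1 := by
      have := hcO c hc
      rwa [hO, h.odd_nb c] at this
    have h6 := (hA3 c hc).1
    omega
  have hAI : ∀ c ∈ C, ∀ i, i ∈ N c \ C ↔ i ∈ I ∧ c ∈ N i := by
    intro c hc i
    rw [← (hA3 c hc).2, mem_inter, hmem, hmem]
    exact ⟨fun h => ⟨h.2, nb_comm h.1⟩, fun h => ⟨nb_comm h.2, h.1⟩⟩
  have hNC : ∀ i ∈ I, N i ⊆ C := by
    intro i hi c hc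
    rw [hmem] at hc
    rw [hI, mem_sdiff] at hi
    exact hout i hi.2 c hc
  -- the first matching
  obtain ⟨m1, hm1, hm1'⟩ := match_reg C (fun c => N c \ C) 3 (by norm_num)
    (fun c hc => (hA3 c hc).1) (by
      intro i
      by_cases hi : i ∈ I
      · rw [← hIN3 i hi]
        refine card_le_card fun c hc => ?_
        rw [mem_filter] at hc
        exact ((hAI c hc.1 i).1 hc.2).2
      · rw [card_eq_zero.2]
        · norm_num
        · rw [Finset.filter_eq_empty_iff]
          intro c hc h'
          exact hi ((hAI c hc i).1 h').1)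
  have sur : ∀ m : V → V, (∀ c ∈ C, m c ∈ N c \ C) → (∀ c ∈ C, ∀ c' ∈ C, m c = m c' → c = c') →
      ∀ i ∈ I, ∃ c ∈ C, m c = i := by
    intro m k1 k2 i hi
    have k3 : C.image m = I := by
      refine eq_of_subset_of_card_le ?_ ?_
      · intro j hj
        obtain ⟨c, hc, rfl⟩ := mem_image.1 hj
        exact ((hAI c hc _).1 (k1 c hc)).1
      · rw [card_image_of_injOn (fun c hc c' hc' => k2 c hc c' hc'), hIc, hC9]
    rw [← k3] at hi
    obtain ⟨c, hc, h'⟩ := mem_image.1 hi
    exact ⟨c, hc, h'⟩
  -- the second matching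
  obtain ⟨m2, hm2, hm2'⟩ := match_reg C (fun c => (N c \ C).erase (m1 c)) 2 (by norm_num)
    (fun c hc => by rw [card_erase_of_mem (hm1 c hc), (hA3 c hc).1]) (by
      intro i
      by_cases hi : i ∈ I
      · obtain ⟨c0, hc0, hc0'⟩ := sur m1 hm1 hm1' i hi
        have k1 : C.filter (fun c => i ∈ (N c \ C).erase (m1 c)) ⊆ (N i).erase c0 := by
          intro c hc
          rw [mem_filter, mem_erase] at hc
          rw [mem_erase]
          refine ⟨?_, ((hAI c hc.1 i).1 hc.2.2).2⟩
          rintro rfl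
          exact hc.2.1 hc0'.symm
        have k2 : c0 ∈ N i := ((hAI c0 hc0 i).1 (hc0' ▸ hm1 c0 hc0)).2
        have k3 := card_le_card k1
        rw [card_erase_of_mem k2, hIN3 i hi] at k3
        exact k3
      · rw [card_eq_zero.2]
        · norm_num
        · rw [Finset.filter_eq_empty_iff]
          intro c hc h'
          exact hi ((hAI c hc i).1 (mem_of_mem_erase h')).1)
  have hm2a : ∀ c ∈ C, m2 c ∈ N c \ C := fun c hc => mem_of_mem_erase (hm2 c hc)
  have hm12 : ∀ c ∈ C, m2 c ≠ m1 c := fun c hc => (mem_erase.1 (hm2 c hc)).1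
  -- the flow
  set g : V → V → F := fun c i => if i = m1 c then (1, 0) else if i = m2 c then (0, 1) else (1, 1)
    with hg
  have hg0 : ∀ c i, g c i ≠ 0 := by
    intro c i
    rw [hg]
    simp only
    split_ifs <;> decide
  set col : V → V → F := fun y z => if y ∈ C then (if z ∈ C then (1, 0) else g y z) else
    (if z ∈ C then g z y else (1, 0)) with hcol
  have hsym : ∀ u v, col u v = col v u := by
    intro u v
    by_cases h1 : u ∈ C <;> by_cases h2 : v ∈ C <;> simp [hcol, h1, h2]
  refine h.nz ⟨fun e => if s e = t e then (1, 0) else col (s e) (t e), ?_, ?_⟩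
  · intro e _
    simp only
    split_ifs with h1
    · decide
    · rw [hcol]
      simp only
      split_ifs
      · decide
      · exact hg0 _ _
      · exact hg0 _ _
      · decide
  · intro y
    have h0 := h.sum_nb y col hsym (1, 0)
    change B s t S (fun e => if s e = t e then (1, 0) else col (s e) (t e)) y = 0
    rw [h0]
    by_cases hy : y ∈ C
    · rw [← Finset.sum_sdiff (inter_subset_left : N y ∩ C ⊆ univ.filter (Nb s t S y))]
      have k1 : (univ.filter (Nb s t S y)) \ (N y ∩ C) = N y \ C := by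
        ext z
        simp only [hN, mem_sdiff, mem_inter]
        tauto
      rw [k1]
      have k2 : ∑ z ∈ N y ∩ C, col y z = 0 := by
        have k3 : ∀ z ∈ N y ∩ C, col y z = (1, 0) := by
          intro z hz
          rw [mem_inter] at hz
          simp [hcol, hy, hz.2]
        rw [Finset.sum_congr rfl k3, Finset.sum_const]
        have k4 := hcc y hy
        obtain ⟨q, hq⟩ : ∃ q, (N y ∩ C).card = q + q := ⟨(N y ∩ C).card / 2, by omega⟩
        rw [hq, add_nsmul]
        exact addF _
      rw [k2, add_zero]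
      obtain ⟨a, ha⟩ : ∃ a, a ∈ ((N y \ C).erase (m1 y)).erase (m2 y) := by
        rw [← Finset.Nonempty, ← card_pos, card_erase_of_mem (hm2 y hy),
          card_erase_of_mem (hm1 y hy), (hA3 y hy).1]
        norm_num
      have k5 : N y \ C = {m1 y, m2 y, a} := by
        symm
        apply eq_of_subset_of_card_le
        · intro z hz
          simp only [mem_insert, mem_singleton] at hz
          rcases hz with rfl | rfl | rfl
          · exact hm1 y hy
          · exact hm2a y hy
          · exact mem_of_mem_erase (mem_of_mem_erase ha)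
        · rw [(hA3 y hy).1]
          rw [mem_erase, mem_erase] at ha
          rw [card_insert_of_notMem, card_pair (Ne.symm ha.1)]
          simp only [mem_insert, mem_singleton, not_or]
          exact ⟨(hm12 y hy).symm, Ne.symm ha.2.1⟩
      rw [mem_erase, mem_erase, mem_sdiff] at ha
      have k6 : m1 y ∉ C := (mem_sdiff.1 (hm1 y hy)).2
      have k7 : m2 y ∉ C := (mem_sdiff.1 (hm2a y hy)).2
      rw [k5, Finset.sum_insert, Finset.sum_pair (Ne.symm ha.1)]
      · simp only [hcol, hy, k6, k7, ha.2.2.2, if_true, if_false, hg, hm12 y hy, ha.1, ha.2.1]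
        decide
      · simp only [mem_insert, mem_singleton, not_or]
        exact ⟨(hm12 y hy).symm, Ne.symm ha.2.1⟩
    · by_cases hyI : y ∈ I
      · obtain ⟨c1, hc1, e1⟩ := sur m1 hm1 hm1' y hyI
        obtain ⟨c2, hc2, e2⟩ := sur m2 hm2a hm2' y hyI
        have k1 : c1 ∈ N y := ((hAI c1 hc1 y).1 (e1 ▸ hm1 c1 hc1)).2
        have k2 : c2 ∈ N y := ((hAI c2 hc2 y).1 (e2 ▸ hm2a c2 hc2)).2
        have k3 : c1 ≠ c2 := by
          rintro rfl
          exact hm12 c1 hc1 (e2.trans e1.symm)
        obtain ⟨a, ha⟩ : ∃ a, a ∈ ((N y).erase c1).erase c2 := by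
          rw [← Finset.Nonempty, ← card_pos, card_erase_of_mem (mem_erase.2 ⟨k3.symm, k2⟩),
            card_erase_of_mem k1, hIN3 y hyI]
          norm_num
        rw [mem_erase, mem_erase] at ha
        have k4 : a ∈ C := hNC y hyI ha.2.2
        have k5 : N y = {c1, c2, a} := by
          symm
          apply eq_of_subset_of_card_le
          · intro z hz
            simp only [mem_insert, mem_singleton] at hz
            rcases hz with rfl | rfl | rfl
            · exact k1
            · exact k2
            · exact ha.2.2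
          · rw [hIN3 y hyI, card_insert_of_notMem, card_pair (Ne.symm ha.1)]
            simp only [mem_insert, mem_singleton, not_or]
            exact ⟨k3, Ne.symm ha.2.1⟩
        have k6 : y ≠ m1 c2 := by
          intro h'
          exact k3 (hm1' c1 hc1 c2 hc2 (e1.trans h'))
        have k7 : y ≠ m1 a := by
          intro h'
          exact ha.2.1 (hm1' a k4 c1 hc1 (h'.symm.trans e1.symm))
        have k8 : y ≠ m2 a := by
          intro h'
          exact ha.1 (hm2' a k4 c2 hc2 (h'.symm.trans e2.symm))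
        change ∑ z ∈ N y, col y z = 0
        rw [k5, Finset.sum_insert, Finset.sum_pair (Ne.symm ha.1)]
        · simp only [hcol, hy, hc1, hc2, k4, if_true, if_false, hg, e1, e2, k6, k7, k8]
          decide
        · simp only [mem_insert, mem_singleton, not_or]
          exact ⟨k3, Ne.symm ha.2.1⟩
      · have k1 : N y = ∅ := by
          by_contra hne
          obtain ⟨c, hc⟩ := nonempty_iff_ne_empty.2 hne
          have hc' := hc
          rw [hmem] at hc
          have hcC := hout y hy c hc
          have k2 : y ∈ N c \ C := mem_sdiff.2 ⟨(hmem c y).2 (nb_comm hc), hy⟩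
          exact hyI ((hAI c hcC y).1 k2).1
        change ∑ z ∈ N y, col y z = 0
        rw [k1, Finset.sum_empty]

end

/-- **vertex covers with at most nine vertices** -/
theorem cover9 (s t : E → V) (S : Finset E) (C : Finset V) (h1 : N1 s t S)
    (hC : ∀ e ∈ S, s e ≠ t e → s e ∈ C ∨ t e ∈ C) (h9 : C.card ≤ 9) : NZ s t S ∨ PQ s t S := by
  classical
  by_contra hc
  rw [not_or] at hc
  obtain ⟨π, hM⟩ := exists_Mq s t S h1 hc.1 hc.2
  refine hM.cover (C := C.image π) ?_ (card_image_le.trans h9)
  intro e he hne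
  rcases hC e he (fun h => hne (congrArg π h)) with h | h
  · exact Or.inl (mem_image_of_mem _ h)
  · exact Or.inr (mem_image_of_mem _ h)

end Pool.Agent.R890.FF
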