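import Pool.Agent.R890.FF.Min

set_option autoImplicit false
set_option linter.unusedSectionVars false

/-!
# Graphs in which all vertices have many neighbours
-/

namespace Pool.Agent.R890.FF

open Finset Pool.Agent.TH362.TF Pool.Agent.TH362.TF.Four

variable {V E : Type} [Fintype V] [DecidableEq V] [DecidableEq E]

theorem arith1 {x k : ℕ} (h1 : 1 ≤ x) (h2 : x ≤ k) : k ≤ x * (k - (x - 1)) := by
  obtain ⟨a, rfl⟩ : ∃ a, x = a + 1 := ⟨x - 1, by omega⟩
  obtain ⟨b, rfl⟩ : ∃ b, k = a + 1 + b := ⟨k - (a + 1), by omega⟩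
  have : a + 1 + b - (a + 1 - 1) = b + 1 := by omega
  rw [this]
  nlinarith [Nat.zero_le (a * b)]

theorem ends_map {s t : E → V} (π : V → V) {v u : V} {e : E} (h : Ends s t v u e) :
    Ends (fun e => π (s e)) (fun e => π (t e)) (π v) (π u) e := by
  rcases h with ⟨h4, h5⟩ | ⟨h4, h5⟩
  · exact Or.inl ⟨congrArg π h4, congrArg π h5⟩
  · exact Or.inr ⟨congrArg π h4, congrArg π h5⟩

/-- the class of a vertex of the quotient has more than `k` vertices, or the vertex has at least
`k` neighbours -/
theorem small {s t : E → V} {S : Finset E} {π : V → V} {k : ℕ}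
    (hM : Mq (fun e => π (s e)) (fun e => π (t e)) S)
    (hk : ∀ v, k ≤ {u | Nb s t S v u}.ncard) (y : V) (hy : ∃ v, π v = y)
    (hX : {v | π v = y}.ncard ≤ k) :
    k ≤ {z | Nb (fun e => π (s e)) (fun e => π (t e)) S y z}.ncard := by
  classical
  set X : Finset V := univ.filter (fun v => π v = y) with hXd
  set N : Finset V := univ.filter (Nb (fun e => π (s e)) (fun e => π (t e)) S y) with hN
  have eX : {v | π v = y}.ncard = X.card := by
    rw [← Set.ncard_coe_finset]; congr 1; ext v; simp [hXd]
  have eN : {z | Nb (fun e => π (s e)) (fun e => π (t e)) S y z}.ncard = N.card := by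
    rw [← Set.ncard_coe_finset]; congr 1; ext v; simp [hN]
  have hk' : ∀ v, k ≤ (univ.filter (Nb s t S v)).card := by
    intro v
    refine (hk v).trans (le_of_eq ?_)
    rw [← Set.ncard_coe_finset]; congr 1; ext u; simp
  rw [eX] at hX
  rw [eN]
  have hX1 : 1 ≤ X.card := by
    obtain ⟨v, hv⟩ := hy
    exact card_pos.2 ⟨v, mem_filter.2 ⟨mem_univ _, hv⟩⟩
  set P : Finset (Σ _ : V, V) := X.sigma (fun v => (univ.filter (Nb s t S v)) \ X) with hP
  have h1 : X.card * (k - (X.card - 1)) ≤ P.card := by
    rw [hP, card_sigma]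
    have h2 : ∀ v ∈ X, k - (X.card - 1) ≤ ((univ.filter (Nb s t S v)) \ X).card := by
      intro v hv
      have h3 : (univ.filter (Nb s t S v) ∩ X) ⊆ X.erase v := by
        intro u hu
        rw [mem_inter, mem_filter] at hu
        exact mem_erase.2 ⟨hu.1.2.1, hu.2⟩
      have h4 := card_le_card h3
      rw [card_erase_of_mem hv] at h4
      have h5 := card_sdiff_add_card_inter (univ.filter (Nb s t S v)) X
      have h6 := hk' v
      omega
    have h7 := Finset.card_nsmul_le_sum X _ _ h2
    rwa [smul_eq_mul] at h7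
  have h2 : P.card ≤ N.card := by
    refine card_le_card_of_injOn (fun p => π p.2) ?_ ?_
    · rintro ⟨v, u⟩ hp
      rw [mem_coe, hP, mem_sigma, mem_sdiff, mem_filter, hXd, mem_filter, mem_filter] at hp
      obtain ⟨⟨-, hv⟩, ⟨-, hne, e, he, hE⟩, hu⟩ := hp
      have hu' : π u ≠ y := fun h => hu ⟨mem_univ _, h⟩
      rw [mem_coe, hN, mem_filter]
      refine ⟨mem_univ _, hu', e, he, ?_⟩
      have h6 := ends_map π hE
      simp only at h6 hv
      rw [hv] at h6
      exact h6
    · rintro ⟨v, u⟩ hp ⟨v', u'⟩ hp' heq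
      rw [mem_coe, hP, mem_sigma, mem_sdiff, mem_filter, hXd, mem_filter, mem_filter] at hp hp'
      obtain ⟨⟨-, hv⟩, ⟨-, hne, e, he, hE⟩, hu⟩ := hp
      obtain ⟨⟨-, hv'⟩, ⟨-, hne', e', he', hE'⟩, hu'⟩ := hp'
      simp only at hv hE hv' hE' heq hu hu'
      have hu1 : π u ≠ y := fun h => hu ⟨mem_univ _, h⟩
      have k1 : Ends (fun e => π (s e)) (fun e => π (t e)) y (π u) e := by
        have h6 := ends_map π hE
        rw [hv] at h6
        exact h6
      have k2 : Ends (fun e => π (s e)) (fun e => π (t e)) y (π u) e' := by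
        have h6 := ends_map π hE'
        rw [hv', ← heq] at h6
        exact h6
      have hee := hM.nopar (Ne.symm hu1) he he' k1 k2
      subst hee
      rcases hE with ⟨h4, h5⟩ | ⟨h4, h5⟩ <;> rcases hE' with ⟨h6, h7⟩ | ⟨h6, h7⟩
      · rw [h4] at h6; rw [h5] at h7; rw [h6, h7]
      · exfalso
        rw [h5] at h7
        exact hu1 (by rw [h7, hv'])
      · exfalso
        rw [h5] at h7
        rw [h4] at h6
        exact hu1 (by rw [h6, hv'])
      · rw [h4] at h6; rw [h5] at h7; rw [h6, h7]
  exact (arith1 hX1 hX).trans (h1.trans h2)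

/-- **many neighbours** -/
theorem mindeg (s t : E → V) (S : Finset E) (k : ℕ) (h1 : N1 s t S)
    (hk : ∀ v, k ≤ {u | Nb s t S v u}.ncard) (hn1 : Fintype.card V ≤ k ^ 2)
    (hn2 : Fintype.card V ≤ 18 * k + 17) : NZ s t S ∨ PQ s t S := by
  classical
  by_contra hc
  rw [not_or] at hc
  obtain ⟨π, hM⟩ := exists_Mq s t S h1 hc.1 hc.2
  have h18 := hM.odd18
  set s' : E → V := fun e => π (s e) with hs'
  set t' : E → V := fun e => π (t e) with ht'
  have hNc : ∀ y, {z | Nb s' t' S y z}.ncard = (univ.filter (Nb s' t' S y)).card := by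
    intro y
    rw [← Set.ncard_coe_finset]; congr 1; ext v; simp
  have hXc : ∀ y, {v | π v = y}.ncard = (univ.filter (fun v => π v = y)).card := by
    intro y
    rw [← Set.ncard_coe_finset]; congr 1; ext v; simp
  have himg : ∀ y z, Nb s' t' S y z → ∃ v, π v = z := by
    rintro y z ⟨-, e, -, h | h⟩
    · exact ⟨t e, h.2⟩
    · exact ⟨s e, h.1⟩
  have hmem : ∀ (y w : V), w ∈ univ.filter (Nb s' t' S y) ↔ Nb s' t' S y w := fun y w => by simp
  -- all classes are large
  have hbig : ∀ y, (∃ v, π v = y) → k + 1 ≤ (univ.filter (fun v => π v = y)).card := by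
    intro y hy
    by_contra hlt
    have hX : {v | π v = y}.ncard ≤ k := by rw [hXc]; omega
    have hNy := small hM hk y hy hX
    rw [hNc] at hNy
    set W : V → Finset V := fun z => univ.filter
      (fun v => π v = z ∨ (Nb s' t' S z (π v) ∧ π v ≠ y)) with hW
    have hWk : ∀ z ∈ univ.filter (Nb s' t' S y), k ≤ (W z).card := by
      intro z hz
      rw [hmem] at hz
      by_cases hz2 : k ≤ (univ.filter (fun v => π v = z)).card
      · refine hz2.trans (card_le_card ?_)
        intro v hv
        exact mem_filter.2 ⟨mem_univ _, Or.inl (mem_filter.1 hv).2⟩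
      · have h3 := small hM hk z (himg y z hz) (by rw [hXc]; omega)
        rw [hNc] at h3
        have h4 : insert z ((univ.filter (Nb s' t' S z)).erase y) ⊆ (W z).image π := by
          intro w hw
          rw [mem_insert, mem_erase, hmem] at hw
          rcases hw with rfl | ⟨hwy, hw⟩
          · obtain ⟨v, hv⟩ := himg y w hz
            exact mem_image.2 ⟨v, mem_filter.2 ⟨mem_univ _, Or.inl hv⟩, hv⟩
          · obtain ⟨v, hv⟩ := himg z w hw
            refine mem_image.2 ⟨v, mem_filter.2 ⟨mem_univ _, Or.inr ?_⟩, hv⟩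
            rw [hv]
            exact ⟨hw, hwy⟩
        have h5 : z ∉ (univ.filter (Nb s' t' S z)).erase y := by
          rw [mem_erase, hmem]
          exact fun h => h.2.1 rfl
        have h6 := card_le_card h4
        rw [card_insert_of_notMem h5, card_erase_of_mem ((hmem z y).2 (nb_comm hz))] at h6
        have h7 := card_image_le (s := W z) (f := π)
        omega
    have hdisj : ∀ z ∈ univ.filter (Nb s' t' S y), ∀ z' ∈ univ.filter (Nb s' t' S y), z ≠ z' →
        Disjoint (W z) (W z') := by
      intro z hz z' hz' hzz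
      rw [hmem] at hz hz'
      rw [disjoint_left]
      intro v hv hv'
      rw [hW, mem_filter] at hv hv'
      rcases hv.2 with h3 | ⟨h3, h3'⟩ <;> rcases hv'.2 with h4 | ⟨h4, h4'⟩
      · exact hzz (h3.symm.trans h4)
      · rw [h3] at h4
        exact hM.tri hz' h4 (nb_comm hz)
      · rw [h4] at h3
        exact hM.tri hz h3 (nb_comm hz')
      · exact hM.four (Ne.symm h3') hzz hz h3 (nb_comm h4) (nb_comm hz')
    have hU : ((univ.filter (Nb s' t' S y)).biUnion W).card =
        ∑ z ∈ univ.filter (Nb s' t' S y), (W z).card := card_biUnion hdisj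
    have h8 := Finset.card_nsmul_le_sum _ _ _ hWk
    rw [smul_eq_mul] at h8
    obtain ⟨v0, hv0⟩ := hy
    have h9 : v0 ∉ (univ.filter (Nb s' t' S y)).biUnion W := by
      rw [mem_biUnion]
      rintro ⟨z, hz, hv⟩
      rw [hmem] at hz
      rw [hW, mem_filter] at hv
      rcases hv.2 with h3 | ⟨h3, h3'⟩
      · exact hz.1 (h3.symm.trans hv0)
      · exact h3' hv0
    have h10 : ((univ.filter (Nb s' t' S y)).biUnion W).card < Fintype.card V := by
      rw [← card_univ]
      exact card_lt_card ⟨subset_univ _, fun h => h9 (h (mem_univ _))⟩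
    have h11 : k * k ≤ (univ.filter (Nb s' t' S y)).card * k := Nat.mul_le_mul_right _ hNy
    rw [pow_two] at hn1
    omega
  -- the number of the classes
  set O := odd s' t' S with hO
  have hOi : ∀ y ∈ O, ∃ v, π v = y := by
    intro y hy
    rw [hO, hM.odd_nb y] at hy
    have : (univ.filter (Nb s' t' S y)).Nonempty := by
      rw [← card_pos]; omega
    obtain ⟨z, hz⟩ := this
    rw [hmem] at hz
    exact himg z y (nb_comm hz)
  have h3 : ∑ y ∈ O, (univ.filter (fun v => π v = y)).card ≤ Fintype.card V := by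
    rw [← card_biUnion]
    · rw [← card_univ]
      exact card_le_card (subset_univ _)
    · intro y _ y' _ hyy
      rw [Function.onFun, disjoint_left]
      intro v hv hv'
      exact hyy ((mem_filter.1 hv).2.symm.trans (mem_filter.1 hv').2)
  have h4 := Finset.card_nsmul_le_sum O (fun y => (univ.filter (fun v => π v = y)).card) (k + 1)
    (fun y hy => hbig y (hOi y hy))
  rw [smul_eq_mul] at h4
  have h5 : 18 * (k + 1) ≤ O.card * (k + 1) := Nat.mul_le_mul_right _ h18
  omega

end Pool.Agent.R890.FF
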