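import Pool.Agent.R890.FF.HfpTab

set_option autoImplicit false
set_option linter.unusedSectionVars false

/-!
# Pairs of a 2-flow and a 4-flow and Petersen quotients
-/

namespace Pool.Agent.R890.FF

open Finset Pool.Agent.TH362.TF Pool.Agent.TH362.TF.Str
open Pool.Agent.H160R2.HF (OrGraph)

variable {V E : Type} [Fintype V] [DecidableEq V] [Fintype E] [DecidableEq E]

/-- the edges at `w` that are not loops -/
abbrev star (s t : E → V) (w : V) : Finset E := cut s t univ (fun v => decide (v = w))

/-- there is a flow pair, and the values at every vertex with exactly three edges can be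
prescribed -/
structure All (s t : E → V) : Prop where
  ex : ∃ f : E → ℤ × ℤ, (∀ e, Adm (f e)) ∧ ∀ v, net s t f v = 0
  ext : ∀ w, (star s t w).card = 3 → ∀ a : E → ℤ × ℤ, (∀ e ∈ star s t w, Adm (a e)) →
    net s t a w = 0 →
    ∃ f : E → ℤ × ℤ, (∀ e, Adm (f e)) ∧ (∀ v, net s t f v = 0) ∧ ∀ e ∈ star s t w, f e = a e

/-- flows on the pieces of a Petersen quotient that agree on the edges between the pieces -/
theorem glue {s t : E → V} {κ : V → Fin 10} (g : Fin 10 → E → ℤ × ℤ) (a : E → ℤ × ℤ)
    (h1 : ∀ k e, Adm (g k e)) (h2 : ∀ k v, κ v = k → net s t (g k) v = 0)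
    (h3 : ∀ k, ∀ e ∈ cut s t univ (fun v => decide (κ v = k)), g k e = a e) :
    ∃ f : E → ℤ × ℤ, (∀ e, Adm (f e)) ∧ (∀ v, net s t f v = 0) ∧
      (∀ e, f e = g (κ (s e)) e) ∧ ∀ e, f e = g (κ (t e)) e := by
  have key : ∀ e, g (κ (s e)) e = g (κ (t e)) e := by
    intro e
    by_cases h4 : κ (s e) = κ (t e)
    · rw [h4]
    · have h5 : e ∈ cut s t univ (fun v => decide (κ v = κ (s e))) := by
        simp only [cut, mem_filter, mem_univ, true_and]
        have : κ (t e) ≠ κ (s e) := fun h' => h4 h'.symm
        simp [this]
      have h6 : e ∈ cut s t univ (fun v => decide (κ v = κ (t e))) := by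
        simp only [cut, mem_filter, mem_univ, true_and]
        simp [h4]
      rw [h3 _ e h5, h3 _ e h6]
  refine ⟨fun e => g (κ (s e)) e, fun e => h1 _ _, fun v => ?_, fun e => rfl, key⟩
  rw [← h2 (κ v) v rfl]
  refine net_eq s t _ _ v fun e he _ => ?_
  rcases he with h | h
  · rw [h]
  · show g (κ (s e)) e = g (κ v) e
    rw [key, h]

/-- the Petersen quotient case -/
theorem all_pq {s t : E → V} {κ : V → Fin 10} (hκ : IsPQ s t univ κ)
    (z : Fin 10 → V) (hz : ∀ k, κ (z k) ≠ k)
    (ih : ∀ k, All (fun e => if κ (s e) = k then s e else z k)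
      (fun e => if κ (t e) = k then t e else z k)) : All s t := by
  classical
  have h1 : ∀ (k : Fin 10) (j : Fin 3), ∃ y, y ∈ (univ : Finset E) ∧ Joins κ s t k (nb k j) y := by
    intro k j
    obtain ⟨y, hy, hy'⟩ := hκ.2 k (nb k j) (padj_nb k j)
    exact ⟨y, hy, hy'⟩
  choose e he using h1
  have hcut : ∀ k, cut s t univ (fun v => decide (κ v = k)) = univ.image (e k) := fun k =>
    cut_pq hκ k (e k) (he k)
  have hinj : ∀ k, Function.Injective (e k) := by
    intro k i j hij
    have h1 := (he k i).2
    rw [hij] at h1
    exact nb_inj k i j (joins_other (nb_ne k i).symm h1 (he k j).2)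
  have hπ : ∀ k x v, κ v = k → (((if κ x = k then x else z k) = v) ↔ x = v) := by
    intro k x v hv
    by_cases h : κ x = k
    · rw [if_pos h]
    · rw [if_neg h]
      constructor
      · intro h'
        exact absurd (h' ▸ hv) (hz k)
      · rintro rfl
        exact absurd hv h
  have hπz : ∀ k x, (((if κ x = k then x else z k) = z k) ↔ κ x ≠ k) := by
    intro k x
    by_cases h : κ x = k
    · rw [if_pos h]
      constructor
      · intro h'
        exact absurd (h' ▸ h) (hz k)
      · intro h'
        exact absurd h h'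
    · rw [if_neg h]
      exact ⟨fun _ => h, fun _ => rfl⟩
  have hnet : ∀ k v (g : E → ℤ × ℤ), κ v = k →
      net (fun e => if κ (s e) = k then s e else z k) (fun e => if κ (t e) = k then t e else z k)
        g v = net s t g v := by
    intro k v g hv
    unfold net
    refine Finset.sum_congr rfl fun x _ => ?_
    simp only [hπ k _ v hv]
  have hstar : ∀ k v, κ v = k →
      star (fun e => if κ (s e) = k then s e else z k)
        (fun e => if κ (t e) = k then t e else z k) v = star s t v := by
    intro k v hv
    ext x
    simp only [star, cut, mem_filter, mem_univ, true_and, hπ k _ v hv]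
  have hstarz : ∀ k, star (fun e => if κ (s e) = k then s e else z k)
        (fun e => if κ (t e) = k then t e else z k) (z k) =
      cut s t univ (fun v => decide (κ v = k)) := by
    intro k
    ext x
    simp only [star, cut, mem_filter, mem_univ, true_and, hπz]
    by_cases h4 : κ (s x) = k <;> by_cases h5 : κ (t x) = k <;> simp [h4, h5]
  -- pieces with prescribed values on the cut
  have side : ∀ (val : Fin 10 → Fin 10 → ℤ × ℤ), PetS Adm val → ∀ k, ∃ g : E → ℤ × ℤ,
      (∀ e, Adm (g e)) ∧ (∀ v, κ v = k → net s t g v = 0) ∧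
      ∀ x ∈ cut s t univ (fun v => decide (κ v = k)), g x = val (κ (s x)) (κ (t x)) := by
    intro val hv k
    have h9 : ∀ x ∈ cut s t univ (fun v => decide (κ v = k)),
        Adm (val (κ (s x)) (κ (t x))) := by
      intro x hx
      rw [hcut, mem_image] at hx
      obtain ⟨j, -, rfl⟩ := hx
      rcases (he k j).2 with ⟨h6, h7⟩ | ⟨h6, h7⟩
      · rw [h6, h7]; exact hv.al _ _
      · rw [h6, h7, hv.sym]; exact Adm_neg (hv.al _ _)
    have h10 : net (fun e => if κ (s e) = k then s e else z k)
        (fun e => if κ (t e) = k then t e else z k)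
        (fun x => val (κ (s x)) (κ (t x))) (z k) = 0 := by
      have h3 : ∑ x ∈ univ.image (e k),
          ((if κ (s x) ≠ k then val (κ (s x)) (κ (t x)) else 0) -
            (if κ (t x) ≠ k then val (κ (s x)) (κ (t x)) else 0)) = 0 := by
        rw [Finset.sum_image (fun i _ j _ h => hinj k h), Fin.sum_univ_three]
        have h5 : ∀ j, ((if κ (s (e k j)) ≠ k then val (κ (s (e k j))) (κ (t (e k j))) else 0) -
            (if κ (t (e k j)) ≠ k then val (κ (s (e k j))) (κ (t (e k j))) else 0)) =
            - val k (nb k j) := by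
          intro j
          have hne := nb_ne k j
          rcases (he k j).2 with ⟨h6, h7⟩ | ⟨h6, h7⟩
          · rw [h6, h7, if_neg (fun h => h rfl), if_pos hne, zero_sub]
          · rw [h6, h7, if_pos hne, if_neg (fun h => h rfl), sub_zero, hv.sym]
        rw [h5, h5, h5, ← neg_add, ← neg_add, hv.sum, neg_zero]
      have h4 : ∀ x, ((if (if κ (s x) = k then s x else z k) = z k then
          val (κ (s x)) (κ (t x)) else 0) - (if (if κ (t x) = k then t x else z k) = z k then
          val (κ (s x)) (κ (t x)) else 0)) =
          ((if κ (s x) ≠ k then val (κ (s x)) (κ (t x)) else 0) -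
            (if κ (t x) ≠ k then val (κ (s x)) (κ (t x)) else 0)) := by
        intro x
        simp only [hπz]
      unfold net
      refine Eq.trans (Finset.sum_congr rfl fun x _ => h4 x) ?_
      refine Eq.trans (Finset.sum_subset (Finset.subset_univ _) fun x _ hx => ?_).symm h3
      rw [← hcut] at hx
      simp only [cut, mem_filter, mem_univ, true_and, not_not] at hx
      rw [decide_eq_decide] at hx
      by_cases h4 : κ (s x) = k
      · rw [if_neg (fun h => h h4), if_neg (fun h => h (hx.1 h4)), sub_self]
      · rw [if_pos h4, if_pos (fun h => h4 (hx.2 h)), sub_self]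
    obtain ⟨g, g1, g2, g3⟩ := (ih k).ext (z k) (by rw [hstarz, hκ.1 k])
      (fun x => val (κ (s x)) (κ (t x))) (fun x hx => h9 x (by rw [← hstarz]; exact hx)) h10
    refine ⟨g, g1, fun v hvk => ?_, fun x hx => g3 x (by rw [hstarz]; exact hx)⟩
    rw [← hnet k v g hvk]
    exact g2 v
  constructor
  · obtain ⟨val, hv, -⟩ := petk 0 (p := ![((0 : ℤ), (2 : ℤ)), (1, -1), (-1, -1)])
      (by decide) (by decide)
    choose g g1 g2 g3 using side val hv
    obtain ⟨f, f1, f2, -, -⟩ := glue g (fun x => val (κ (s x)) (κ (t x))) g1
      (fun k v hk => g2 k v hk) g3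
    exact ⟨f, f1, f2⟩
  · intro w hw a ha hn
    obtain ⟨g0, a1, a2, a3⟩ := (ih (κ w)).ext w (by rw [hstar _ w rfl]; exact hw) a
      (by rw [hstar _ w rfl]; exact ha) (by rw [hnet _ w a rfl]; exact hn)
    rw [hstar _ w rfl] at a3
    have a2' : ∀ v, κ v = κ w → net s t g0 v = 0 := by
      intro v hv
      rw [← hnet (κ w) v g0 hv]
      exact a2 v
    -- values on the cut
    set out : Fin 3 → ℤ × ℤ := fun j =>
      if κ (s (e (κ w) j)) = κ w then g0 (e (κ w) j) else - g0 (e (κ w) j) with hout
    have hAout : ∀ j, Adm (out j) := by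
      intro j
      simp only [hout]
      split_ifs
      · exact a1 _
      · exact Adm_neg (a1 _)
    have hsum : out 0 + out 1 + out 2 = 0 := by
      have h2 := net_cut s t g0 (univ.filter (fun v => κ v = κ w))
        (fun v hv => a2' v (mem_filter.1 hv).2)
      have h3 : ∑ x ∈ univ.image (e (κ w)),
          ((if s x ∈ univ.filter (fun v => κ v = κ w) then g0 x else 0) -
            (if t x ∈ univ.filter (fun v => κ v = κ w) then g0 x else 0)) = 0 := by
        refine Eq.trans (Finset.sum_subset (Finset.subset_univ _) fun x _ hx => ?_) h2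
        rw [← hcut] at hx
        simp only [cut, mem_filter, mem_univ, true_and, not_not] at hx ⊢
        rw [decide_eq_decide] at hx
        by_cases h4 : κ (s x) = κ w
        · rw [if_pos h4, if_pos (hx.1 h4), sub_self]
        · rw [if_neg h4, if_neg (fun h => h4 (hx.2 h)), sub_self]
      rw [Finset.sum_image (fun i _ j _ h => hinj (κ w) h), Fin.sum_univ_three] at h3
      rw [← h3]
      have h5 : ∀ j, out j =
          (if s (e (κ w) j) ∈ univ.filter (fun v => κ v = κ w) then g0 (e (κ w) j) else 0)
          - (if t (e (κ w) j) ∈ univ.filter (fun v => κ v = κ w) then g0 (e (κ w) j) else 0) := by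
        intro j
        simp only [hout, mem_filter, mem_univ, true_and]
        have hne := nb_ne (κ w) j
        rcases (he (κ w) j).2 with ⟨h6, h7⟩ | ⟨h6, h7⟩
        · rw [if_pos h6, if_pos h6, if_neg (fun h => hne (h7.symm.trans h)), sub_zero]
        · rw [if_neg (fun h => hne (h6.symm.trans h)), if_neg (fun h => hne (h6.symm.trans h)),
            if_pos h7, zero_sub]
      rw [h5, h5, h5]
    obtain ⟨val, hv, hval⟩ := petk (κ w) hAout hsum
    have hag : ∀ x ∈ cut s t univ (fun v => decide (κ v = κ w)),
        g0 x = val (κ (s x)) (κ (t x)) := by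
      intro x hx
      rw [hcut, mem_image] at hx
      obtain ⟨j, -, rfl⟩ := hx
      have h8 := hval j
      simp only [hout] at h8
      rcases (he (κ w) j).2 with ⟨h6, h7⟩ | ⟨h6, h7⟩
      · rw [if_pos h6] at h8
        rw [h6, h7, h8]
      · rw [if_neg (fun h => nb_ne (κ w) j (h6.symm.trans h))] at h8
        rw [h6, h7, hv.sym, h8, neg_neg]
    choose g g1 g2 g3 using side val hv
    obtain ⟨f, f1, f2, f3, f4⟩ := glue (κ := κ) (fun k => if k = κ w then g0 else g k)
      (fun x => val (κ (s x)) (κ (t x)))
      (fun k x => by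
        show Adm ((if k = κ w then g0 else g k) x)
        split_ifs
        · exact a1 x
        · exact g1 k x)
      (fun k v hk => by
        show net s t (if k = κ w then g0 else g k) v = 0
        split_ifs with h
        · exact a2' v (hk.trans h)
        · exact g2 k v hk)
      (fun k x hx => by
        show (if k = κ w then g0 else g k) x = _
        split_ifs with h
        · rw [h] at hx
          exact hag x hx
        · exact g3 k x hx)
    refine ⟨f, f1, f2, fun x hx => ?_⟩
    rw [← a3 x hx]
    have hx' := hx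
    simp only [star, cut, mem_filter, mem_univ, true_and] at hx'
    by_cases h4 : s x = w
    · rw [f3 x, h4]
      show (if κ w = κ w then g0 else g (κ w)) x = g0 x
      rw [if_pos rfl]
    · by_cases h5 : t x = w
      · rw [f4 x, h5]
        show (if κ w = κ w then g0 else g (κ w)) x = g0 x
        rw [if_pos rfl]
      · exact absurd (by simp [h4, h5]) hx'

end Pool.Agent.R890.FF
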