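import Pool.Agent.R890.FF.Hfp

set_option autoImplicit false
set_option linter.unusedSectionVars false

/-!
# Pairs of a 2-flow and a 4-flow: classes of graphs with flow-or-Petersen theorems
-/

namespace Pool.Agent.R890.FF

open Finset Pool.Agent.TH362.TF Pool.Agent.TH362.TF.Str
open Pool.Agent.H160R2.HF (OrGraph)

variable {V E : Type} [Fintype V] [DecidableEq V] [Fintype E] [DecidableEq E]

theorem net_fst (s t : E → V) (f : E → ℤ × ℤ) (v : V) : (net s t f v).1 =
    ∑ e, ((if s e = v then (f e).1 else 0) - (if t e = v then (f e).1 else 0)) := by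
  unfold net
  rw [Prod.fst_sum]
  refine Finset.sum_congr rfl fun e _ => ?_
  rw [Prod.fst_sub]
  split_ifs <;> simp

theorem net_snd (s t : E → V) (f : E → ℤ × ℤ) (v : V) : (net s t f v).2 =
    ∑ e, ((if s e = v then (f e).2 else 0) - (if t e = v then (f e).2 else 0)) := by
  unfold net
  rw [Prod.snd_sum]
  refine Finset.sum_congr rfl fun e _ => ?_
  rw [Prod.snd_sub]
  split_ifs <;> simp

theorem sum_form (s t : E → V) (g : E → ℤ) (v : V) :
    ∑ e, ((if s e = v then g e else 0) - (if t e = v then g e else 0)) =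
      (∑ e with s e = v, g e) - ∑ e with t e = v, g e := by
  rw [Finset.sum_sub_distrib, Finset.sum_filter, Finset.sum_filter]

theorem net_zero_iff (s t : E → V) (f : E → ℤ × ℤ) (v : V) : net s t f v = 0 ↔
    (∑ e with s e = v, (f e).1 = ∑ e with t e = v, (f e).1) ∧
      (∑ e with s e = v, (f e).2 = ∑ e with t e = v, (f e).2) := by
  rw [Prod.ext_iff, net_fst, net_snd, sum_form, sum_form]
  show _ - _ = (0 : ℤ) ∧ _ - _ = (0 : ℤ) ↔ _
  rw [sub_eq_zero, sub_eq_zero]

theorem adm_iff (x y : ℤ) : Adm (x, y) ↔ (|x| ≤ 1 ∧ |y| ≤ 3 ∧ (x = 0 → 2 ≤ |y|)) := by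
  unfold Adm
  rw [abs_le, abs_le]
  simp only [le_abs]
  constructor
  · rintro ⟨h1, h2, h3⟩
    refine ⟨h1, h2, fun h => ?_⟩
    rcases h3 h with h4 | h4
    · right; linarith
    · left; exact h4
  · rintro ⟨h1, h2, h3⟩
    refine ⟨h1, h2, fun h => ?_⟩
    rcases h3 h with h4 | h4
    · right; exact h4
    · left; linarith

theorem pair_iff' (G : OrGraph V E) (a b : E → ℤ) : G.IsHalfFlowPair a b ↔
    (∀ e, Adm (a e, b e)) ∧ ∀ v, net G.t G.h (fun e => (a e, b e)) v = 0 := by
  constructor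
  · rintro ⟨⟨h1, h2⟩, ⟨h3, h4⟩, h5⟩
    refine ⟨fun e => (adm_iff _ _).2 ⟨?_, ?_, h5 e⟩, fun v => (net_zero_iff _ _ _ _).2 ⟨h2 v, h4 v⟩⟩
    · have := h1 e
      norm_num at this
      exact this
    · have := h3 e
      norm_num at this
      exact this
  · rintro ⟨h1, h2⟩
    refine ⟨⟨fun e => ?_, fun v => ((net_zero_iff _ _ _ _).1 (h2 v)).1⟩,
      ⟨fun e => ?_, fun v => ((net_zero_iff _ _ _ _).1 (h2 v)).2⟩,
      fun e => ((adm_iff _ _).1 (h1 e)).2.2⟩
    · have := ((adm_iff _ _).1 (h1 e)).1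
      norm_num
      exact this
    · have := ((adm_iff _ _).1 (h1 e)).2.1
      norm_num
      exact this

theorem cut_star (s t : E → V) (w : V) : (⟨s, t⟩ : OrGraph V E).cut {w} = star s t w := by
  ext e
  simp only [OrGraph.cut, star, cut, mem_filter, mem_univ, true_and, mem_singleton]
  by_cases h1 : s e = w <;> by_cases h2 : t e = w <;> simp [h1, h2]

theorem sum_og (s t : E → V) (w : V) (a : E → ℤ) :
    ∑ e ∈ (⟨s, t⟩ : OrGraph V E).cut {w}, Pool.Agent.TH499.NF.og ⟨s, t⟩ w e * a e =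
      ∑ e, ((if s e = w then a e else 0) - (if t e = w then a e else 0)) := by
  rw [cut_star]
  unfold star cut
  rw [Finset.sum_filter]
  refine Finset.sum_congr rfl fun e _ => ?_
  unfold Pool.Agent.TH499.NF.og
  by_cases h1 : s e = w <;> by_cases h2 : t e = w <;> simp [h1, h2]

theorem even_of_cons {s t : E → V} {φ : E → F} (π : F →+ ZMod 2) (v : V)
    (h : Cons s t univ φ v) :
    Even (((univ.filter (fun e => π (φ e) = 1)).filter (fun e => s e = v)).card +
      ((univ.filter (fun e => π (φ e) = 1)).filter (fun e => t e = v)).card) := by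
  rw [← ZMod.natCast_eq_zero_iff_even]
  have h1 := congrArg π h
  rw [map_zero, map_sum] at h1
  rw [Nat.cast_add, Finset.card_filter, Finset.card_filter, Nat.cast_sum, Nat.cast_sum,
    ← Finset.sum_add_distrib, Finset.sum_filter]
  refine Eq.trans (Finset.sum_congr rfl fun e _ => ?_) h1
  have h2 : ∀ x : ZMod 2, x = 0 ∨ x = 1 := by decide
  rw [map_add, apply_ite π, apply_ite π, map_zero]
  rcases h2 (π (φ e)) with h3 | h3
  · rw [h3]; simp
  · rw [h3]; simp

theorem nz_all (s t : E → V) (h : NZ s t univ) : All s t := by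
  classical
  obtain ⟨φ, h1, h2⟩ := h
  constructor
  · obtain ⟨a, a1, a2⟩ := Pool.Agent.H160R2.HF.eulerian s t
      (univ.filter (fun e => (AddMonoidHom.fst _ _) (φ e) = (1 : ZMod 2)))
      (fun v => even_of_cons _ v (h2 v))
    obtain ⟨b, b1, b2⟩ := Pool.Agent.H160R2.HF.eulerian s t
      (univ.filter (fun e => (AddMonoidHom.snd _ _) (φ e) = (1 : ZMod 2)))
      (fun v => even_of_cons _ v (h2 v))
    refine ⟨fun e => (a e, 2 * b e), fun e => ?_, fun v => ?_⟩
    · have h3 : ∀ x : F, x ≠ 0 → x.1 = 1 ∨ x.2 = 1 := by decide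
      have ha : a e = 1 ∨ a e = -1 ∨ a e = 0 := by
        by_cases h : e ∈ univ.filter (fun e => (AddMonoidHom.fst _ _) (φ e) = (1 : ZMod 2))
        · rcases (a1 e).1 h with h | h
          · exact Or.inl h
          · exact Or.inr (Or.inl h)
        · exact Or.inr (Or.inr ((a1 e).2 h))
      have hb : b e = 1 ∨ b e = -1 ∨ b e = 0 := by
        by_cases h : e ∈ univ.filter (fun e => (AddMonoidHom.snd _ _) (φ e) = (1 : ZMod 2))
        · rcases (b1 e).1 h with h | h
          · exact Or.inl h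
          · exact Or.inr (Or.inl h)
        · exact Or.inr (Or.inr ((b1 e).2 h))
      have hab : a e ≠ 0 ∨ b e ≠ 0 := by
        rcases h3 _ (h1 e (mem_univ e)) with h4 | h4
        · left
          have := (a1 e).1 (mem_filter.2 ⟨mem_univ _, h4⟩)
          omega
        · right
          have := (b1 e).1 (mem_filter.2 ⟨mem_univ _, h4⟩)
          omega
      unfold Adm
      simp only
      omega
    · rw [net_zero_iff]
      refine ⟨?_, ?_⟩
      · have := a2 v
        unfold Pool.Agent.H160R2.HF.net at this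
        exact sub_eq_zero.1 this
      · have := b2 v
        unfold Pool.Agent.H160R2.HF.net at this
        have h3 := sub_eq_zero.1 this
        simp only [← Finset.mul_sum]
        rw [h3]
  · intro w hw a ha hn
    have hn1 := congrArg Prod.fst hn
    have hn2 := congrArg Prod.snd hn
    rw [net_fst] at hn1
    rw [net_snd] at hn2
    obtain ⟨p, q, hpq, hv⟩ := Pool.Agent.TH499.NF.prescribed (G := ⟨s, t⟩) (f := φ)
      (fun e => h1 e (mem_univ e))
      (fun x => by rw [Pool.Agent.TH499.NF.bd_eq]; exact h2 x)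
      (w := w) (by rw [cut_star]; exact hw) (fun e => (a e).1) (fun e => (a e).2)
      (by rw [sum_og]; exact hn1) (by rw [sum_og]; exact hn2)
      (fun e he => ((adm_iff _ _).1 (ha e (by rw [← cut_star]; exact he))).1)
      (fun e he => ((adm_iff _ _).1 (ha e (by rw [← cut_star]; exact he))).2.1)
      (fun e he => ((adm_iff _ _).1 (ha e (by rw [← cut_star]; exact he))).2.2)
    obtain ⟨q1, q2⟩ := (pair_iff' _ _ _).1 hpq
    refine ⟨fun e => (p e, q e), q1, q2, fun e he => ?_⟩
    obtain ⟨v1, v2⟩ := hv e (by rw [cut_star]; exact he)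
    exact Prod.ext v1 v2

theorem ex_pair2 : ∀ k : Fin 10, ∃ l m, padj l m = true ∧ l ≠ k ∧ m ≠ k ∧ l ≠ m := by decide

/-- classes of graphs that are closed under the identification of the vertices outside of a class
of a Petersen quotient -/
theorem all_class {Cl : (E → V) → (E → V) → Prop}
    (hC1 : ∀ (s t : E → V) (π : V → V), Cl s t →
      Cl (fun e => π (s e)) (fun e => π (t e)))
    (hC2 : ∀ s t, Cl s t → N1 s t univ → NZ s t univ ∨ PQ s t univ) :
    ∀ (n : ℕ) (s t : E → V), (univ.filter (fun e => s e ≠ t e)).card = n → Cl s t →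
      N1 s t univ → All s t := by
  classical
  intro n
  induction n using Nat.strong_induction_on with
  | _ n ih =>
    intro s t hn hCl hN
    rcases hC2 s t hCl hN with hz | ⟨κ, hκ⟩
    · exact nz_all s t hz
    · have h1 : ∀ k, ∃ e0 : E, κ (s e0) ≠ k ∧ κ (t e0) ≠ k ∧ κ (s e0) ≠ κ (t e0) := by
        intro k
        obtain ⟨l, m, hlm, hlk, hmk, hne⟩ := ex_pair2 k
        obtain ⟨e0, -, he0⟩ := hκ.2 l m hlm
        refine ⟨e0, ?_⟩
        rcases he0 with ⟨h6, h7⟩ | ⟨h6, h7⟩
        · rw [h6, h7]; exact ⟨hlk, hmk, hne⟩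
        · rw [h6, h7]; exact ⟨hmk, hlk, hne.symm⟩
      choose e0 z1 z2 z3 using h1
      refine all_pq hκ (fun k => s (e0 k)) z1 fun k => ?_
      refine ih _ ?_ _ _ rfl (hC1 s t (fun v => if κ v = k then v else s (e0 k)) hCl)
        (quot_n1 (S' := univ) (f := fun v => if κ v = k then v else s (e0 k)) (Subset.refl _)
          (fun e h h' => absurd h h') hN)
      rw [← hn]
      refine card_lt_card ⟨?_, ?_⟩
      · intro x hx
        rw [mem_filter] at hx ⊢
        exact ⟨mem_univ _, fun h => hx.2 (by rw [h])⟩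
      · intro h
        have h5 : e0 k ∈ univ.filter (fun e => s e ≠ t e) := by
          rw [mem_filter]
          exact ⟨mem_univ _, fun h6 => z3 k (by rw [h6])⟩
        have h6 := h h5
        rw [mem_filter] at h6
        apply h6.2
        rw [if_neg (z1 k), if_neg (z2 k)]

/-- at most 16 vertices of odd degree, or a vertex cover with at most nine vertices -/
def Small (s t : E → V) : Prop :=
  (odd s t univ).card ≤ 16 ∨ ∃ C : Finset V, C.card ≤ 9 ∧ ∀ e, s e ≠ t e → s e ∈ C ∨ t e ∈ C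

theorem all_small (s t : E → V) (hN : N1 s t univ) (h : Small s t) : All s t := by
  refine all_class (Cl := Small) ?_ ?_ _ s t rfl h hN
  · rintro s t π (h | ⟨C, h1, h2⟩)
    · exact Or.inl (((card_le_card (quot_odd (S' := univ) (f := π) (Subset.refl _)
        (fun e h h' => absurd h h'))).trans card_image_le).trans h)
    · refine Or.inr ⟨C.image π, card_image_le.trans h1, fun e he => ?_⟩
      rcases h2 e (fun h => he (congrArg π h)) with h | h
      · exact Or.inl (mem_image_of_mem _ h)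
      · exact Or.inr (mem_image_of_mem _ h)
  · rintro s t (h | ⟨C, h1, h2⟩) h3
    · exact main16 s t univ h3 h
    · exact cover9 s t univ C h3 (fun e _ he => h2 e he) h1

theorem n1_of_bridge (K : OrGraph V E) (h : K.Bridgeless) : N1 K.t K.h univ := by
  intro x hx
  obtain ⟨e, he⟩ := card_eq_one.mp hx
  have hstay : ∀ a b, (K.sub (univ.erase e)).Reachable a b → x a = x b := by
    rintro a b ⟨p⟩
    induction p with
    | nil => rfl
    | cons hadj _ ih =>
      refine Eq.trans ?_ ih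
      have hn : ∀ e', e' ≠ e → x (K.t e') = x (K.h e') := by
        intro e' h1
        by_contra h2
        have h3 : e' ∈ cut K.t K.h univ x := mem_filter.2 ⟨mem_univ _, h2⟩
        rw [he, mem_singleton] at h3
        exact h1 h3
      unfold OrGraph.sub at hadj
      rw [SimpleGraph.fromRel_adj] at hadj
      rcases hadj.2 with ⟨e', h1, h2, h3⟩ | ⟨e', h1, h2, h3⟩
      · rw [← h2, ← h3]
        exact hn e' (ne_of_mem_erase h1)
      · rw [← h2, ← h3]
        exact (hn e' (ne_of_mem_erase h1)).symm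
  have hm : e ∈ cut K.t K.h univ x := by rw [he]; exact mem_singleton_self _
  exact (mem_filter.1 hm).2 (hstay _ _ (h e))

theorem odd_eq (K : OrGraph V E) :
    univ.filter (fun v => Odd (K.deg univ v)) = odd K.t K.h univ := by
  unfold odd
  congr 1
  ext v
  have h : K.deg univ v = Pool.Agent.TH362.TF.deg K.t K.h univ v := by
    unfold OrGraph.deg Pool.Agent.TH362.TF.deg
    rw [Finset.card_filter, Finset.card_filter, Finset.sum_add_distrib]
  rw [h]

/-- the final form -/
theorem hfp_small (K : OrGraph V E) (h : K.Bridgeless)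
    (hs : (univ.filter (fun v => Odd (K.deg univ v))).card ≤ 16 ∨
      ∃ W : Finset V, W.card ≤ 9 ∧ ∀ e, K.t e ≠ K.h e → K.t e ∈ W ∨ K.h e ∈ W) :
    (∃ φ₂ φ₄ : E → ℤ, K.IsHalfFlowPair φ₂ φ₄) ∧
      ∀ (w : V) (α β : E → ℤ), (K.cut {w}).card = 3 →
        (∀ e ∈ K.cut {w}, |α e| ≤ 1 ∧ |β e| ≤ 3 ∧ (α e = 0 → 2 ≤ |β e|)) →
        ∑ e with K.t e = w, α e = ∑ e with K.h e = w, α e →
        ∑ e with K.t e = w, β e = ∑ e with K.h e = w, β e →
        ∃ φ₂ φ₄ : E → ℤ, K.IsHalfFlowPair φ₂ φ₄ ∧ ∀ e ∈ K.cut {w}, φ₂ e = α e ∧ φ₄ e = β e := by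
  rw [odd_eq] at hs
  obtain ⟨⟨f, f1, f2⟩, h2⟩ := all_small K.t K.h (n1_of_bridge K h) hs
  refine ⟨⟨fun e => (f e).1, fun e => (f e).2, (pair_iff' K _ _).2 ⟨f1, f2⟩⟩, ?_⟩
  intro w α β hw hA hα hβ
  have hc : K.cut {w} = star K.t K.h w := cut_star K.t K.h w
  rw [hc] at hw hA ⊢
  obtain ⟨g, g1, g2, g3⟩ := h2 w hw (fun e => (α e, β e))
    (fun e he => (adm_iff _ _).2 (hA e he)) ((net_zero_iff _ _ _ _).2 ⟨hα, hβ⟩)
  refine ⟨fun e => (g e).1, fun e => (g e).2, (pair_iff' K _ _).2 ⟨g1, g2⟩, fun e he => ?_⟩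
  show (g e).1 = α e ∧ (g e).2 = β e
  rw [g3 e he]
  exact ⟨rfl, rfl⟩

end Pool.Agent.R890.FF
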