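import Pool.Agent.R890.FF.Sgn
import Pool.Agent.TH499.NF.Glue

set_option autoImplicit false
set_option linter.unusedSectionVars false
set_option linter.style.longLine false
set_option maxRecDepth 100000

/-!
# Pairs of a 2-flow and a 4-flow: the values and the Petersen graph
-/

namespace Pool.Agent.R890.FF

open Finset Pool.Agent.TH362.TF

/-- the pairs of values that are allowed -/
def Adm (p : ℤ × ℤ) : Prop :=
  (-1 ≤ p.1 ∧ p.1 ≤ 1) ∧ (-3 ≤ p.2 ∧ p.2 ≤ 3) ∧ (p.1 = 0 → p.2 ≤ -2 ∨ 2 ≤ p.2)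

instance (p : ℤ × ℤ) : Decidable (Adm p) := by
  unfold Adm
  infer_instance

theorem Adm_neg {p : ℤ × ℤ} (h : Adm p) : Adm (-p) := by
  unfold Adm at h ⊢
  simp only [Prod.fst_neg, Prod.snd_neg]
  omega

/-- the pair with code `c` -/
def dec (c : ℕ) : ℤ × ℤ :=
  if c < 4 then (0, if c = 0 then 2 else if c = 1 then 3 else if c = 2 then -2 else -3)
  else if c < 11 then (1, (c : ℤ) - 7) else (-1, (c : ℤ) - 14)

theorem dec_sur : ∀ x ∈ Finset.Icc (-1 : ℤ) 1, ∀ y ∈ Finset.Icc (-3 : ℤ) 3, Adm (x, y) →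
    ∃ c : Fin 18, dec c = (x, y) := by
  decide +kernel

theorem dec_Adm : ∀ c : Fin 18, Adm (dec c) := by
  decide +kernel

/-- numbers of the edges of the Petersen graph -/
def ei : Fin 10 → Fin 10 → ℕ :=
  ![![15, 0, 15, 15, 1, 2, 15, 15, 15, 15],
    ![0, 15, 3, 15, 15, 15, 4, 15, 15, 15],
    ![15, 3, 15, 5, 15, 15, 15, 6, 15, 15],
    ![15, 15, 5, 15, 7, 15, 15, 15, 8, 15],
    ![1, 15, 15, 7, 15, 15, 15, 15, 15, 9],
    ![2, 15, 15, 15, 15, 15, 15, 10, 11, 15],
    ![15, 4, 15, 15, 15, 15, 15, 15, 12, 13],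
    ![15, 15, 6, 15, 15, 10, 15, 15, 15, 14],
    ![15, 15, 15, 8, 15, 11, 12, 15, 15, 15],
    ![15, 15, 15, 15, 9, 15, 13, 14, 15, 15]]

/-- the values given by the digits of a number -/
def pv (n : ℕ) (k l : Fin 10) : ℤ × ℤ :=
  if padj k l then (if k < l then dec (n / 32 ^ ei k l % 32) else -dec (n / 32 ^ ei k l % 32)) else 0

/-- solutions: flow pairs of the Petersen graph for the values on the edges from `0` to `1` and
`4` -/
def tabH : List (List ℕ) :=
  [
    [0, 0, 0, 0, 8894104977933151255680, 12324010420912352606368, 7564714316777774101696, 5278618467098562998496, 5278582439366695922944, 0, 0, 8893852783810081726816, 12323758226789283077504, 7564462122654704572832, 5278366272975493469632, 5278330245243626394080, 0, 0],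
    [0, 0, 0, 0, 9998532810303312476289, 7714740551833501381793, 7714704524101634306241, 5239345985466589785313, 0, 0, 0, 9998280616180242947425, 7714488357710431852929, 7714452329978564777377, 5239093791343520256449, 0, 0, 0],
    [0, 0, 0, 0, 0, 0, 8858401530767423521986, 8670439257274508853474, 8670403229542641777922, 8670367201810774702370, 5242876810769898681666, 0, 0, 8858149336644353993122, 8670187063151439324610, 8670151035419572249058, 8670115007687705173506, 5242624616646829152802],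
    [0, 0, 0, 0, 0, 0, 0, 7566011354535603455203, 7565975326803736379651, 7565939299071869304099, 9852146609480005728579, 0, 0, 0, 7565759160412533926339, 7565723132680666850787, 7565687104948799775235, 9851894415356936199715],
    [15353924263565864320004, 18972873968919599200292, 0, 0, 0, 0, 0, 0, 0, 0, 0, 0, 0, 0, 3839849550748579857860, 1365539158892622217700, 0, 0],
    [15355041156273453250565, 13028555932254679938085, 0, 0, 0, 0, 0, 0, 0, 0, 0, 0, 0, 149243068429412402597, 2583094212052662714821, 0, 0, 0],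
    [20189205031515999712262, 13029672824962268868646, 16571446455728118776902, 0, 0, 0, 0, 0, 0, 0, 0, 0, 186136521392460465542, 2623516238624533250470, 0, 0, 0, 186026186605284362790],
    [16648730690513957564423, 17790049723909977189415, 20151231769176107434055, 20190502069479993787495, 0, 0, 0, 0, 0, 0, 0, 224287606753758053735, 2660409691587581313415, 0, 0, 0, 224142370167941270023, 2660299356731685735975],
    [15352810748563364523016, 0, 20152348661883696364616, 17713990542029681082472, 0, 0, 0, 0, 0, 0, 0, 1328715509492663452008, 0, 0, 0, 3802880664694084897256, 1328570272838127193608, 0],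
    [0, 0, 20153465554591285295177, 17715107434737270013033, 0, 0, 0, 0, 0, 0, 0, 0, 0, 0, 3839774117657132960201, 1365463725801175256553, 0, 0],
    [0, 0, 16570330688925805360202, 17716224327444858943594, 0, 0, 0, 0, 0, 0, 0, 0, 0, 149202537136606185898, 2583053680759856434634, 0, 0, 0],
    [15361742512518986833931, 18980692217872721714219, 0, 0, 0, 0, 0, 4098103721489916298475, 1623793329633958658315, 0, 0, 0, 0, 0, 0, 0, 0, 0],
    [15362859405226575764492, 13036374181207802452012, 0, 0, 0, 0, 407497239170748843212, 2841348382793999155436, 0, 0, 0, 0, 0, 0, 0, 0, 0, 0],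
    [20197023280469122226189, 13037491073915391382573, 16579264704681241290829, 0, 0, 444390692133796906157, 2881770409365869691085, 0, 0, 0, 444280357346620803405, 0, 0, 0, 0, 0, 0, 0],
    [16656548939467080078350, 17797867972863099703342, 20159050018129229947982, 20198320318433116301422, 482541777495094494350, 2918663862328917754030, 0, 0, 0, 482396540909277710638, 2918553527473022176590, 0, 0, 0, 0, 0, 0, 0],
    [15360628997516487036943, 0, 20160166910836818878543, 17721808790982803596399, 1586969680233999892623, 0, 0, 0, 4061134835435421337871, 1586824443579463634223, 0, 0, 0, 0, 0, 0, 0, 0],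
    [0, 0, 20161283803544407809104, 17722925683690392526960, 0, 0, 0, 4098028288398469400816, 1623717896542511697168, 0, 0, 0, 0, 0, 0, 0, 0, 0],
    [0, 0, 16578148937878927874129, 17724042576397981457521, 0, 0, 407456707877942626513, 2841307851501192875249, 0, 0, 0, 0, 0, 0, 0, 0, 0, 0]]

/-- the number for two prescribed values -/
def th (a b : ℕ) : ℕ := (tabH.getD a []).getD b 0

theorem th_ok : ∀ a b : Fin 18, Adm (-(dec a + dec b)) →
    (∀ k j, Adm (pv (th a b) k (nb k j))) ∧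
    (∀ k, pv (th a b) k (nb k 0) + pv (th a b) k (nb k 1) + pv (th a b) k (nb k 2) = 0) ∧
    pv (th a b) 0 (nb 0 0) = dec a ∧ pv (th a b) 0 (nb 0 1) = dec b := by
  decide +kernel

theorem ei_sym : ∀ k l, ei k l = ei l k := by decide

theorem padj_sym : ∀ k l, padj k l = padj l k := by decide

theorem padj_ne : ∀ k l, padj k l = true → k ≠ l := by decide

theorem pv_sym (n : ℕ) (k l : Fin 10) : pv n k l = -pv n l k := by
  unfold pv
  rw [ei_sym k l, padj_sym k l]
  by_cases h : padj l k = true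
  · have hne := padj_ne l k h
    rw [if_pos h, if_pos h]
    rcases lt_or_gt_of_ne hne with h1 | h1
    · rw [if_neg (not_lt.2 h1.le), if_pos h1]
    · rw [if_pos h1, if_neg (not_lt.2 h1.le), neg_neg]
  · rw [if_neg h, if_neg h, neg_zero]

/-- every allowed triple of values at the vertex `0` extends to the Petersen graph -/
theorem pet0 {p0 p1 p2 : ℤ × ℤ} (h0 : Adm p0) (h1 : Adm p1) (h2 : Adm p2)
    (h : p0 + p1 + p2 = 0) : ∃ val, PetS Adm val ∧ val 0 (nb 0 0) = p0 ∧ val 0 (nb 0 1) = p1 ∧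
      val 0 (nb 0 2) = p2 := by
  have key : ∀ p : ℤ × ℤ, Adm p → ∃ c : Fin 18, dec c = p := by
    intro p hp
    have hp' := hp
    unfold Adm at hp'
    obtain ⟨c, hc⟩ := dec_sur p.1 (Finset.mem_Icc.2 hp'.1) p.2 (Finset.mem_Icc.2 hp'.2.1) hp
    exact ⟨c, hc⟩
  obtain ⟨a, ha⟩ := key p0 h0
  obtain ⟨b, hb⟩ := key p1 h1
  have h3 : p2 = -(p0 + p1) := (neg_eq_of_add_eq_zero_right h).symm
  have h4 : Adm (-(dec a + dec b)) := by rw [ha, hb, ← h3]; exact h2
  obtain ⟨t1, t2, t3, t4⟩ := th_ok a b h4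
  refine ⟨pv (th a b), ⟨pv_sym _, t1, t2⟩, t3.trans ha, t4.trans hb, ?_⟩
  have h5 := t2 0
  rw [t3, t4, ha, hb] at h5
  rw [h3]
  exact (neg_eq_of_add_eq_zero_right h5).symm

/-- automorphisms of the Petersen graph that map the vertex `k` to `0` -/
def tau : Fin 10 → Fin 10 → Fin 10 :=
  ![![0, 1, 2, 3, 4, 5, 6, 7, 8, 9],
    ![4, 0, 1, 2, 3, 9, 5, 6, 7, 8],
    ![3, 4, 0, 1, 2, 8, 9, 5, 6, 7],
    ![2, 3, 4, 0, 1, 7, 8, 9, 5, 6],
    ![1, 2, 3, 4, 0, 6, 7, 8, 9, 5],
    ![5, 7, 2, 3, 8, 0, 9, 1, 4, 6],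
    ![7, 5, 8, 6, 9, 2, 0, 3, 1, 4],
    ![3, 8, 5, 7, 2, 4, 6, 0, 9, 1],
    ![2, 3, 8, 5, 7, 1, 4, 6, 0, 9],
    ![7, 2, 3, 8, 5, 9, 1, 4, 6, 0]]

theorem tau_root : ∀ k, tau k k = 0 ∧ ∀ j, tau k (nb k j) = nb 0 j := by decide

theorem tau_nb : ∀ k a : Fin 10, ∀ j : Fin 3, ∃ i, tau k (nb a j) = nb (tau k a) i := by decide

theorem tau_inj : ∀ k a : Fin 10, ∀ i j : Fin 3, tau k (nb a i) = tau k (nb a j) → i = j := by
  decide

theorem perm_sum {Γ : Type} [AddCommGroup Γ] (f : Fin 3 → Γ) (h : f 0 + f 1 + f 2 = 0)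
    (i0 i1 i2 : Fin 3) (h01 : i0 ≠ i1) (h02 : i0 ≠ i2) (h12 : i1 ≠ i2) :
    f i0 + f i1 + f i2 = 0 := by
  have key : ∀ i0 i1 i2 : Fin 3, i0 ≠ i1 → i0 ≠ i2 → i1 ≠ i2 →
      (i0 = 0 ∧ i1 = 1 ∧ i2 = 2) ∨ (i0 = 0 ∧ i1 = 2 ∧ i2 = 1) ∨ (i0 = 1 ∧ i1 = 0 ∧ i2 = 2) ∨
      (i0 = 1 ∧ i1 = 2 ∧ i2 = 0) ∨ (i0 = 2 ∧ i1 = 0 ∧ i2 = 1) ∨ (i0 = 2 ∧ i1 = 1 ∧ i2 = 0) := by
    decide
  rcases key i0 i1 i2 h01 h02 h12 with ⟨rfl, rfl, rfl⟩ | ⟨rfl, rfl, rfl⟩ | ⟨rfl, rfl, rfl⟩ |
    ⟨rfl, rfl, rfl⟩ | ⟨rfl, rfl, rfl⟩ | ⟨rfl, rfl, rfl⟩ <;> rw [← h] <;> abel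

/-- every allowed triple of values at a vertex extends to the Petersen graph -/
theorem petk (k : Fin 10) {p : Fin 3 → ℤ × ℤ} (hA : ∀ j, Adm (p j))
    (h : p 0 + p 1 + p 2 = 0) : ∃ val, PetS Adm val ∧ ∀ j, val k (nb k j) = p j := by
  obtain ⟨val, hv, v0, v1, v2⟩ := pet0 (hA 0) (hA 1) (hA 2) h
  obtain ⟨r1, r2⟩ := tau_root k
  refine ⟨fun a b => val (tau k a) (tau k b), ⟨fun a b => hv.sym _ _, fun a j => ?_, fun a => ?_⟩,
    fun j => ?_⟩
  · obtain ⟨i, hi⟩ := tau_nb k a j
    show Adm (val (tau k a) (tau k (nb a j)))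
    rw [hi]
    exact hv.al _ _
  · obtain ⟨i0, e0⟩ := tau_nb k a 0
    obtain ⟨i1, e1⟩ := tau_nb k a 1
    obtain ⟨i2, e2⟩ := tau_nb k a 2
    show val (tau k a) (tau k (nb a 0)) + val (tau k a) (tau k (nb a 1)) +
      val (tau k a) (tau k (nb a 2)) = 0
    have n01 : i0 ≠ i1 := by
      rintro rfl
      have := tau_inj k a 0 1 (e0.trans e1.symm)
      exact absurd this (by decide)
    have n02 : i0 ≠ i2 := by
      rintro rfl
      have := tau_inj k a 0 2 (e0.trans e2.symm)
      exact absurd this (by decide)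
    have n12 : i1 ≠ i2 := by
      rintro rfl
      have := tau_inj k a 1 2 (e1.trans e2.symm)
      exact absurd this (by decide)
    rw [e0, e1, e2]
    exact perm_sum (fun i => val (tau k a) (nb (tau k a) i)) (hv.sum _) i0 i1 i2 n01 n02 n12
  · show val (tau k k) (tau k (nb k j)) = p j
    rw [r1, r2 j]
    have h4 : j = 0 ∨ j = 1 ∨ j = 2 := by
      revert j; decide
    rcases h4 with rfl | rfl | rfl
    · exact v0
    · exact v1
    · exact v2

end Pool.Agent.R890.FF
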