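import Pool.Agent.R890.FF.Sgn
import Pool.Agent.H23.PS.OcFin

set_option autoImplicit false
set_option linter.unusedSectionVars false

/-!
# Differences of two of five unit vectors
-/

namespace Pool.Agent.R890.FF

open Finset Pool.Agent.TH362.TF

/-- the difference of two unit vectors -/
def U (i j : Fin 5) : Fin 5 → ℤ := fun k => (if i = k then 1 else 0) - (if j = k then 1 else 0)

/-- the differences of two different unit vectors -/
def IsU (x : Fin 5 → ℤ) : Prop := ∃ i j, i ≠ j ∧ x = U i j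

theorem U_neg (i j : Fin 5) : -U i j = U j i := by
  funext k
  simp only [U, Pi.neg_apply, neg_sub]

/-- permutation of the coordinates -/
def pHom (π : Equiv.Perm (Fin 5)) : (Fin 5 → ℤ) →+ (Fin 5 → ℤ) where
  toFun x := fun k => x (π.symm k)
  map_zero' := rfl
  map_add' _ _ := rfl

theorem pHom_U (π : Equiv.Perm (Fin 5)) (i j : Fin 5) : pHom π (U i j) = U (π i) (π j) := by
  funext k
  have h : ∀ l : Fin 5, (l = π.symm k) ↔ (π l = k) := by
    intro l
    constructor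
    · rintro rfl
      simp
    · rintro rfl
      simp
  show (if i = π.symm k then (1 : ℤ) else 0) - (if j = π.symm k then 1 else 0) =
    (if π i = k then (1 : ℤ) else 0) - (if π j = k then 1 else 0)
  simp only [h]

theorem pHom_IsU (π : Equiv.Perm (Fin 5)) (x : Fin 5 → ℤ) (h : IsU x) : IsU (pHom π x) := by
  obtain ⟨i, j, hij, rfl⟩ := h
  exact ⟨π i, π j, fun h => hij (π.injective h), pHom_U π i j⟩

theorem IsU_neg (x : Fin 5 → ℤ) (h : IsU x) : IsU (-x) := by
  obtain ⟨i, j, hij, rfl⟩ := h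
  exact ⟨j, i, hij.symm, U_neg i j⟩

/-- three different points can be mapped to any three different points -/
theorem perm3 {p q r p' q' r' : Fin 5} (h1 : p ≠ q) (h2 : p ≠ r) (h3 : q ≠ r) (h1' : p' ≠ q')
    (h2' : p' ≠ r') (h3' : q' ≠ r') :
    ∃ π : Equiv.Perm (Fin 5), π p = p' ∧ π q = q' ∧ π r = r' := by
  set a := Equiv.swap p p' with ha
  have a1 : a p = p' := Equiv.swap_apply_left _ _
  have a2 : a q ≠ p' := fun h => h1 (a.injective (a1.trans h.symm))
  have a3 : a r ≠ p' := fun h => h2 (a.injective (a1.trans h.symm))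
  set b := Equiv.swap (a q) q' with hb
  have b1 : b p' = p' := Equiv.swap_apply_of_ne_of_ne a2.symm h1'
  have b2 : b (a q) = q' := Equiv.swap_apply_left _ _
  have b3 : b (a r) ≠ q' := fun h => h3 (a.injective (b.injective (b2.trans h.symm)))
  have b4 : b (a r) ≠ p' := fun h => a3 (b.injective (h.trans b1.symm))
  set c := Equiv.swap (b (a r)) r' with hc
  have c1 : c p' = p' := Equiv.swap_apply_of_ne_of_ne b4.symm h2'
  have c2 : c q' = q' := Equiv.swap_apply_of_ne_of_ne b3.symm h3'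
  have c3 : c (b (a r)) = r' := Equiv.swap_apply_left _ _
  refine ⟨(a.trans b).trans c, ?_, ?_, ?_⟩
  · simp only [Equiv.trans_apply, a1, b1, c1]
  · simp only [Equiv.trans_apply, b2, c2]
  · simp only [Equiv.trans_apply, c3]

theorem cls : ∀ a b c d f g : Fin 5, a ≠ b → c ≠ d → f ≠ g →
    (∀ k, U a b k + U c d k = U f g k) → (b = c ∧ a ≠ d) ∨ (a = d ∧ b ≠ c) := by
  unfold U
  decide +kernel

/-- the pairs of values whose sum is a value -/
theorem form {x y : Fin 5 → ℤ} (hx : IsU x) (hy : IsU y) (hxy : IsU (x + y)) :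
    ∃ p q r : Fin 5, p ≠ q ∧ p ≠ r ∧ q ≠ r ∧
      ((x = U p q ∧ y = U q r) ∨ (x = -U p q ∧ y = -U q r)) := by
  obtain ⟨a, b, hab, rfl⟩ := hx
  obtain ⟨c, d, hcd, rfl⟩ := hy
  obtain ⟨f, g, hfg, h⟩ := hxy
  rcases cls a b c d f g hab hcd hfg (fun k => congrFun h k) with ⟨rfl, h1⟩ | ⟨rfl, h1⟩
  · exact ⟨a, b, d, hab, h1, hcd, Or.inl ⟨rfl, rfl⟩⟩
  · refine ⟨b, a, c, hab.symm, h1, hcd.symm, Or.inr ⟨?_, ?_⟩⟩
    · rw [U_neg]
    · rw [U_neg]

theorem hom3U : Hom3 IsU where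
  neg := IsU_neg
  hom x y x' y' hx hy hxy hx' hy' hxy' := by
    obtain ⟨p, q, r, h1, h2, h3, h4⟩ := form hx hy hxy
    obtain ⟨p', q', r', h1', h2', h3', h4'⟩ := form hx' hy' hxy'
    obtain ⟨π, e1, e2, e3⟩ := perm3 h1 h2 h3 h1' h2' h3'
    have k1 : pHom π (U p q) = U p' q' := by rw [pHom_U, e1, e2]
    have k2 : pHom π (U q r) = U q' r' := by rw [pHom_U, e2, e3]
    rcases h4 with ⟨rfl, rfl⟩ | ⟨rfl, rfl⟩ <;> rcases h4' with ⟨rfl, rfl⟩ | ⟨rfl, rfl⟩
    · exact ⟨pHom π, pHom_IsU π, k1, k2⟩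
    · refine ⟨-pHom π, fun z hz => ?_, ?_, ?_⟩
      · rw [AddMonoidHom.neg_apply]; exact IsU_neg _ (pHom_IsU π z hz)
      · rw [AddMonoidHom.neg_apply, k1]
      · rw [AddMonoidHom.neg_apply, k2]
    · refine ⟨-pHom π, fun z hz => ?_, ?_, ?_⟩
      · rw [AddMonoidHom.neg_apply]; exact IsU_neg _ (pHom_IsU π z hz)
      · rw [AddMonoidHom.neg_apply, map_neg, k1, neg_neg]
      · rw [AddMonoidHom.neg_apply, map_neg, k2, neg_neg]
    · refine ⟨pHom π, pHom_IsU π, ?_, ?_⟩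
      · rw [map_neg, k1]
      · rw [map_neg, k2]

/-- the class that uses the edge `k l` of the Petersen graph from `k` to `l` -/
def tabOc : Fin 10 → Fin 10 → Fin 5 :=
  ![![0, 0, 0, 0, 1, 2, 0, 0, 0, 0],
    ![1, 0, 0, 0, 0, 0, 2, 0, 0, 0],
    ![0, 2, 0, 0, 0, 0, 0, 3, 0, 0],
    ![0, 0, 3, 0, 2, 0, 0, 0, 0, 0],
    ![2, 0, 0, 3, 0, 0, 0, 0, 0, 1],
    ![0, 0, 0, 0, 0, 0, 0, 2, 4, 0],
    ![0, 1, 0, 0, 0, 0, 0, 0, 2, 4],
    ![0, 0, 2, 0, 0, 4, 0, 0, 0, 3],
    ![0, 0, 0, 2, 0, 0, 4, 0, 0, 0],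
    ![0, 0, 0, 0, 3, 0, 1, 4, 0, 0]]

theorem tabOc_ne : ∀ (k : Fin 10) (j : Fin 3), tabOc k (nb k j) ≠ tabOc (nb k j) k := by decide

theorem tabOc_sum : ∀ (k : Fin 10) (i : Fin 5),
    U (tabOc k (nb k 0)) (tabOc (nb k 0) k) i + U (tabOc k (nb k 1)) (tabOc (nb k 1) k) i +
      U (tabOc k (nb k 2)) (tabOc (nb k 2) k) i = 0 := by
  unfold U
  decide

theorem petOc : PetS IsU (fun k l => U (tabOc k l) (tabOc l k)) where
  sym _ _ := (U_neg _ _).symm
  al k j := ⟨_, _, tabOc_ne k j, rfl⟩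
  sum k := funext fun i => tabOc_sum k i

open Pool.Agent.H160R2.HF Pool.Agent.H23.PS

variable {V E : Type} [Fintype V] [DecidableEq V] [Fintype E] [DecidableEq E]

theorem net_apply (s t : E → V) (f : E → Fin 5 → ℤ) (v : V) (i : Fin 5) :
    net s t f v i = ∑ e, ((if s e = v then f e i else 0) - (if t e = v then f e i else 0)) := by
  unfold net
  rw [Finset.sum_apply]
  refine Finset.sum_congr rfl fun e _ => ?_
  rw [Pi.sub_apply]
  split_ifs <;> simp

theorem classes_iff (s t : E → V) :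
    (∃ f : E → Fin 5 → ℤ, (∀ e, IsU (f e)) ∧ ∀ v, net s t f v = 0) ↔
      FiveClasses (⟨s, t⟩ : OrGraph V E) := by
  constructor
  · rintro ⟨f, h1, h2⟩
    choose p q hpq hf using h1
    refine ⟨p, q, hpq, fun i v => ?_⟩
    have h3 := congrFun (h2 v) i
    rw [net_apply, Finset.sum_sub_distrib, ← Finset.sum_filter, ← Finset.sum_filter] at h3
    have h4 := sub_eq_zero.1 h3
    simp only [hf, U] at h4
    exact h4
  · rintro ⟨p, q, hpq, h⟩
    refine ⟨fun e => U (p e) (q e), fun e => ⟨p e, q e, hpq e, rfl⟩, fun v => funext fun i => ?_⟩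
    rw [net_apply, Finset.sum_sub_distrib, ← Finset.sum_filter, ← Finset.sum_filter]
    exact sub_eq_zero.2 (h i v)

theorem deg_even_of_cons {s t : E → V} {φ : E → F} (π : F →+ ZMod 2) (v : V)
    (h : Cons s t univ φ v) :
    Even ((⟨s, t⟩ : OrGraph V E).deg (univ.filter (fun e => π (φ e) = 1)) v) := by
  rw [← ZMod.natCast_eq_zero_iff_even, deg_cast]
  have h1 := congrArg π h
  rw [map_zero, map_sum] at h1
  refine Eq.trans (Finset.sum_congr rfl fun e _ => ?_) h1
  have h2 : ∀ x : ZMod 2, x = 0 ∨ x = 1 := by decide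
  rw [map_add, apply_ite π, apply_ite π, map_zero]
  simp only [mem_filter, mem_univ, true_and]
  rcases h2 (π (φ e)) with h3 | h3
  · rw [h3]; simp
  · rw [h3]; simp

theorem classes_of_nz (s t : E → V) (h : NZ s t univ) :
    ∃ f : E → Fin 5 → ℤ, (∀ e, IsU (f e)) ∧ ∀ v, net s t f v = 0 := by
  rw [classes_iff]
  obtain ⟨φ, h1, h2⟩ := h
  refine fiveClasses_of_cover _ (univ.filter (fun e => (AddMonoidHom.fst _ _) (φ e) = (1 : ZMod 2)))
    (univ.filter (fun e => (AddMonoidHom.snd _ _) (φ e) = (1 : ZMod 2)))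
    (fun v => deg_even_of_cons _ v (h2 v)) (fun v => deg_even_of_cons _ v (h2 v)) ?_
  rw [Finset.eq_univ_iff_forall]
  intro e
  rw [mem_union, mem_filter, mem_filter]
  have h3 : ∀ x : F, x ≠ 0 → x.1 = 1 ∨ x.2 = 1 := by decide
  rcases h3 _ (h1 e (mem_univ e)) with h4 | h4
  · exact Or.inl ⟨mem_univ _, h4⟩
  · exact Or.inr ⟨mem_univ _, h4⟩

/-- **orientable five cycle double covers** of graphs with a vertex cover with at most nine
vertices -/
theorem oc_cover (s t : E → V) (C : Finset V) (hN : N1 s t univ)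
    (hC : ∀ e, s e ≠ t e → s e ∈ C ∨ t e ∈ C) (h9 : C.card ≤ 9) :
    FiveClasses (⟨s, t⟩ : OrGraph V E) := by
  rw [← classes_iff]
  exact sgn_cover hom3U petOc classes_of_nz s t C hN hC h9

theorem n1_of_bridgeless (K : OrGraph V E) (h : K.Bridgeless) : N1 K.t K.h univ := by
  intro x hx
  obtain ⟨e, he⟩ := card_eq_one.mp hx
  have hstay : ∀ a b, (K.sub (univ.erase e)).Reachable a b → x a = x b := by
    rintro a b ⟨p⟩
    induction p with
    | nil => rfl
    | cons hadj _ ih =>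
      refine Eq.trans ?_ ih
      have hn : ∀ e', e' ≠ e → x (K.t e') = x (K.h e') := by
        intro e' h1
        by_contra h2
        have h3 : e' ∈ cut K.t K.h univ x := mem_filter.2 ⟨mem_univ _, h2⟩
        rw [he, mem_singleton] at h3
        exact h1 h3
      unfold OrGraph.sub at hadj
      rw [SimpleGraph.fromRel_adj] at hadj
      rcases hadj.2 with ⟨e', h1, h2, h3⟩ | ⟨e', h1, h2, h3⟩
      · rw [← h2, ← h3]
        exact hn e' (ne_of_mem_erase h1)
      · rw [← h2, ← h3]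
        exact (hn e' (ne_of_mem_erase h1)).symm
  have hm : e ∈ cut K.t K.h univ x := by rw [he]; exact mem_singleton_self _
  exact (mem_filter.1 hm).2 (hstay _ _ (h e))

/-- an orientation of a simple graph -/
noncomputable def orient (S : SimpleGraph V) : OrGraph V S.edgeSet where
  t e := (Quot.out e.1).1
  h e := (Quot.out e.1).2

theorem orient_eq (S : SimpleGraph V) (e : S.edgeSet) :
    s((orient S).t e, (orient S).h e) = e.1 := Quot.out_eq e.1

theorem orient_is (S : SimpleGraph V) : IsOrientation S (orient S) := by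
  constructor
  · intro e
    have h := e.2
    rw [← orient_eq S e] at h
    exact h
  · intro u v huv
    have key : ∀ e : S.edgeSet, (((orient S).t e = u ∧ (orient S).h e = v) ∨
        ((orient S).h e = u ∧ (orient S).t e = v)) ↔ e.1 = s(u, v) := by
      intro e
      rw [← orient_eq S e, Sym2.eq_iff]
      constructor
      · rintro (⟨h1, h2⟩ | ⟨h1, h2⟩)
        · exact Or.inl ⟨h1, h2⟩
        · exact Or.inr ⟨h2, h1⟩
      · rintro (⟨h1, h2⟩ | ⟨h1, h2⟩)
        · exact Or.inl ⟨h1, h2⟩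
        · exact Or.inr ⟨h2, h1⟩
    refine ⟨⟨s(u, v), huv⟩, (key _).2 rfl, fun e he => Subtype.ext ((key e).1 he)⟩

theorem orient_bridgeless [DecidableEq (Sym2 V)] (S : SimpleGraph V) [Fintype S.edgeSet]
    (h : ∀ u v : V, S.Adj u v → (S.deleteEdges {s(u, v)}).Reachable u v) :
    (orient S).Bridgeless := by
  intro e
  have h1 := h _ _ ((orient_is S).1 e)
  refine h1.mono ?_
  intro a b hab
  rw [SimpleGraph.deleteEdges_adj] at hab
  obtain ⟨h2, h3⟩ := hab
  unfold OrGraph.sub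
  rw [SimpleGraph.fromRel_adj]
  refine ⟨h2.ne, ?_⟩
  obtain ⟨e', he', -⟩ := (orient_is S).2 a b h2
  have hne : e' ≠ e := by
    rintro rfl
    apply h3
    rw [Set.mem_singleton_iff, Sym2.eq_iff]
    rcases he' with ⟨h4, h5⟩ | ⟨h4, h5⟩
    · exact Or.inl ⟨h4.symm, h5.symm⟩
    · exact Or.inr ⟨h4.symm, h5.symm⟩
  rcases he' with ⟨h4, h5⟩ | ⟨h4, h5⟩
  · exact Or.inl ⟨e', mem_erase.2 ⟨hne, mem_univ _⟩, h4, h5⟩
  · exact Or.inr ⟨e', mem_erase.2 ⟨hne, mem_univ _⟩, h5, h4⟩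

/-- multigraphs without bridges -/
theorem oc_multi (K : OrGraph V E) (h : K.Bridgeless) (C : Finset V)
    (hC : ∀ e, K.t e ≠ K.h e → K.t e ∈ C ∨ K.h e ∈ C) (h9 : C.card ≤ 9) : FiveClasses K :=
  oc_cover K.t K.h C (n1_of_bridgeless K h) hC h9

end Pool.Agent.R890.FF
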