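import Pool.Agent.R890.FF.Cov
import Pool.Agent.TH362.TF.Str

set_option autoImplicit false
set_option linter.unusedSectionVars false

/-!
# Flows with values in a set of values that is closed under the change of sign
-/

namespace Pool.Agent.R890.FF

open Finset Pool.Agent.TH362.TF Pool.Agent.TH362.TF.Str

variable {V E : Type} [Fintype V] [DecidableEq V] [Fintype E] [DecidableEq E]
variable {Γ : Type} [AddCommGroup Γ] {A : Γ → Prop}

/-- the net value that leaves the vertex `v` -/
def net (s t : E → V) (f : E → Γ) (v : V) : Γ :=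
  ∑ e, ((if s e = v then f e else 0) - (if t e = v then f e else 0))

/-- the set of values is closed under the change of sign, and all pairs of values whose sum is a
value are equivalent -/
structure Hom3 (A : Γ → Prop) : Prop where
  neg : ∀ x, A x → A (-x)
  hom : ∀ x y x' y', A x → A y → A (x + y) → A x' → A y' → A (x' + y') →
    ∃ σ : Γ →+ Γ, (∀ z, A z → A (σ z)) ∧ σ x = x' ∧ σ y = y'

/-- a flow on the Petersen graph -/
structure PetS (A : Γ → Prop) (val : Fin 10 → Fin 10 → Γ) : Prop where
  sym : ∀ k l, val k l = - val l k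
  al : ∀ k j, A (val k (nb k j))
  sum : ∀ k, val k (nb k 0) + val k (nb k 1) + val k (nb k 2) = 0

theorem net_eq (s t : E → V) (f g : E → Γ) (v : V)
    (h : ∀ e, (s e = v ∨ t e = v) → s e ≠ t e → f e = g e) : net s t f v = net s t g v := by
  unfold net
  refine Finset.sum_congr rfl fun e _ => ?_
  by_cases h3 : s e = v <;> by_cases h4 : t e = v
  · rw [if_pos h3, if_pos h4, if_pos h3, if_pos h4, sub_self, sub_self]
  · rw [if_pos h3, if_neg h4, if_pos h3, if_neg h4,
      h e (Or.inl h3) (fun h5 => h4 (h5.symm.trans h3))]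
  · rw [if_neg h3, if_pos h4, if_neg h3, if_pos h4,
      h e (Or.inr h4) (fun h5 => h3 (h5.trans h4))]
  · rw [if_neg h3, if_neg h4, if_neg h3, if_neg h4]

theorem net_hom {Γ' : Type} [AddCommGroup Γ'] (σ : Γ →+ Γ') (s t : E → V) (f : E → Γ) (v : V) :
    net s t (fun e => σ (f e)) v = σ (net s t f v) := by
  unfold net
  rw [map_sum]
  refine Finset.sum_congr rfl fun e _ => ?_
  rw [map_sub]
  split_ifs <;> simp

theorem net_cut (s t : E → V) (f : E → Γ) (Y : Finset V) (h : ∀ v ∈ Y, net s t f v = 0) :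
    ∑ e, ((if s e ∈ Y then f e else 0) - (if t e ∈ Y then f e else 0)) = 0 := by
  have h1 : ∑ v ∈ Y, net s t f v = 0 := Finset.sum_eq_zero h
  unfold net at h1
  rw [Finset.sum_comm] at h1
  refine Eq.trans (Finset.sum_congr rfl fun e _ => ?_) h1
  simp only [Finset.sum_sub_distrib, Finset.sum_ite_eq]

/-- gluing along a Petersen quotient -/
theorem sgn_pq (hA : Hom3 A) {val : Fin 10 → Fin 10 → Γ} (hv : PetS A val) {s t : E → V}
    {κ : V → Fin 10} (hκ : IsPQ s t univ κ)
    (hg : ∀ k, ∃ g : E → Γ, (∀ e, A (g e)) ∧ ∀ v, κ v = k → net s t g v = 0) :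
    ∃ f : E → Γ, (∀ e, A (f e)) ∧ ∀ v, net s t f v = 0 := by
  classical
  choose g hg1 hg2 using hg
  have h1 : ∀ (k : Fin 10) (j : Fin 3), ∃ y, y ∈ (univ : Finset E) ∧ Joins κ s t k (nb k j) y := by
    intro k j
    obtain ⟨y, hy, hy'⟩ := hκ.2 k (nb k j) (padj_nb k j)
    exact ⟨y, hy, hy'⟩
  choose e he using h1
  have hcut : ∀ k, cut s t univ (fun v => decide (κ v = k)) = univ.image (e k) := fun k =>
    cut_pq hκ k (e k) (he k)
  have hinj : ∀ k, Function.Injective (e k) := by
    intro k i j hij
    have h1 := (he k i).2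
    rw [hij] at h1
    exact nb_inj k i j (joins_other (nb_ne k i).symm h1 (he k j).2)
  set out : Fin 10 → Fin 3 → Γ := fun k j =>
    if κ (s (e k j)) = k then g k (e k j) else - g k (e k j) with hout
  have hAout : ∀ k j, A (out k j) := by
    intro k j
    simp only [hout]
    split_ifs
    · exact hg1 _ _
    · exact hA.neg _ (hg1 _ _)
  have hsum : ∀ k, out k 0 + out k 1 + out k 2 = 0 := by
    intro k
    have h2 := net_cut s t (g k) (univ.filter (fun v => κ v = k))
      (fun v hv => hg2 k v (mem_filter.1 hv).2)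
    have h3 : ∑ x ∈ univ.image (e k),
        ((if s x ∈ univ.filter (fun v => κ v = k) then g k x else 0) -
          (if t x ∈ univ.filter (fun v => κ v = k) then g k x else 0)) = 0 := by
      refine Eq.trans (Finset.sum_subset (Finset.subset_univ _) fun x _ hx => ?_) h2
      rw [← hcut] at hx
      simp only [cut, mem_filter, mem_univ, true_and, not_not] at hx ⊢
      rw [decide_eq_decide] at hx
      by_cases h4 : κ (s x) = k
      · rw [if_pos h4, if_pos (hx.1 h4), sub_self]
      · rw [if_neg h4, if_neg (fun h => h4 (hx.2 h)), sub_self]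
    rw [Finset.sum_image (fun i _ j _ h => hinj k h), Fin.sum_univ_three] at h3
    rw [← h3]
    have h5 : ∀ j, out k j = (if s (e k j) ∈ univ.filter (fun v => κ v = k) then g k (e k j) else 0)
        - (if t (e k j) ∈ univ.filter (fun v => κ v = k) then g k (e k j) else 0) := by
      intro j
      simp only [hout, mem_filter, mem_univ, true_and]
      have hne := nb_ne k j
      rcases (he k j).2 with ⟨h6, h7⟩ | ⟨h6, h7⟩
      · rw [if_pos h6, if_pos h6, if_neg (fun h => hne (h7.symm.trans h)), sub_zero]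
      · rw [if_neg (fun h => hne (h6.symm.trans h)), if_neg (fun h => hne (h6.symm.trans h)),
          if_pos h7, zero_sub]
    rw [h5, h5, h5]
  have h3 : ∀ x y z : Γ, x + y + z = 0 → x + y = -z := by
    intro x y z h
    exact eq_neg_of_add_eq_zero_left h
  have hσ : ∀ k, ∃ σ : Γ →+ Γ, (∀ x, A x → A (σ x)) ∧ σ (out k 0) = val k (nb k 0) ∧
      σ (out k 1) = val k (nb k 1) := by
    intro k
    refine hA.hom _ _ _ _ (hAout k _) (hAout k _) ?_ (hv.al _ _) (hv.al _ _) ?_
    · rw [h3 _ _ _ (hsum k)]; exact hA.neg _ (hAout k _)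
    · rw [h3 _ _ _ (hv.sum k)]; exact hA.neg _ (hv.al _ _)
  choose σ hσ1 hσ2 hσ3 using hσ
  have hσ4 : ∀ k j, σ k (out k j) = val k (nb k j) := by
    intro k j
    have h4 : j = 0 ∨ j = 1 ∨ j = 2 := by
      revert j; decide
    rcases h4 with rfl | rfl | rfl
    · exact hσ2 k
    · exact hσ3 k
    · have h5 := h3 _ _ _ (hsum k)
      have h6 : out k 2 = -(out k 0 + out k 1) := by rw [h5, neg_neg]
      have h7 : val k (nb k 2) = -(val k (nb k 0) + val k (nb k 1)) := by
        rw [h3 _ _ _ (hv.sum k), neg_neg]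
      rw [h6, map_neg, map_add, hσ2, hσ3, ← h7]
  set f : E → Γ := fun x => if κ (s x) = κ (t x) then σ (κ (s x)) (g (κ (s x)) x)
    else val (κ (s x)) (κ (t x)) with hf
  have key : ∀ k x, (κ (s x) = k ∨ κ (t x) = k) → f x = σ k (g k x) := by
    intro k x hx
    by_cases h4 : κ (s x) = κ (t x)
    · have h5 : κ (s x) = k := by
        rcases hx with h | h
        · exact h
        · exact h4.trans h
      simp only [hf]
      rw [if_pos h4, h5]
    · have h5 : x ∈ cut s t univ (fun v => decide (κ v = k)) := by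
        simp only [cut, mem_filter, mem_univ, true_and]
        rcases hx with h | h
        · have : κ (t x) ≠ k := fun h' => h4 (h.trans h'.symm)
          simp [h, this]
        · have : κ (s x) ≠ k := fun h' => h4 (h'.trans h.symm)
          simp [h, this]
      rw [hcut, mem_image] at h5
      obtain ⟨j, -, hj⟩ := h5
      have h8 := hσ4 k j
      simp only [hout] at h8
      simp only [hf]
      rw [if_neg h4, ← hj]
      rcases (he k j).2 with ⟨h6, h7⟩ | ⟨h6, h7⟩
      · rw [if_pos h6] at h8
        rw [h6, h7, h8]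
      · rw [if_neg (fun h => nb_ne k j (h6.symm.trans h)), map_neg] at h8
        rw [h6, h7, hv.sym, ← h8, neg_neg]
  refine ⟨f, fun x => ?_, fun v => ?_⟩
  · simp only [hf]
    split_ifs with h4
    · exact hσ1 _ _ (hg1 _ _)
    · have h5 : x ∈ cut s t univ (fun v => decide (κ v = κ (s x))) := by
        simp only [cut, mem_filter, mem_univ, true_and]
        have : κ (t x) ≠ κ (s x) := fun h' => h4 h'.symm
        simp [this]
      rw [hcut, mem_image] at h5
      obtain ⟨j, -, hj⟩ := h5
      rcases (he (κ (s x)) j).2 with ⟨h6, h7⟩ | ⟨h6, h7⟩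
      · rw [hj] at h7
        rw [h7]
        exact hv.al _ _
      · rw [hj] at h6
        exact absurd h6.symm (nb_ne _ _)
  · have h4 : net s t f v = net s t (fun x => σ (κ v) (g (κ v) x)) v := by
      refine net_eq s t _ _ v fun x hx _ => key (κ v) x ?_
      rcases hx with h | h
      · exact Or.inl (congrArg κ h)
      · exact Or.inr (congrArg κ h)
    rw [h4, net_hom, hg2 (κ v) v rfl, map_zero]

theorem ex_pair' : ∀ k : Fin 10, ∃ l m, padj l m = true ∧ l ≠ k ∧ m ≠ k ∧ l ≠ m := by decide

/-- classes of graphs which are closed under the identification of vertices -/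
theorem sgn_class (hA : Hom3 A) {val : Fin 10 → Fin 10 → Γ} (hv : PetS A val)
    (h4 : ∀ s t : E → V, NZ s t univ → ∃ f : E → Γ, (∀ e, A (f e)) ∧ ∀ v, net s t f v = 0)
    {Cl : (E → V) → (E → V) → Prop}
    (hC1 : ∀ s t (π : V → V), Cl s t → Cl (fun e => π (s e)) (fun e => π (t e)))
    (hC2 : ∀ s t, Cl s t → N1 s t univ → NZ s t univ ∨ PQ s t univ) :
    ∀ (n : ℕ) (s t : E → V), (univ.filter (fun e => s e ≠ t e)).card = n → Cl s t →
      N1 s t univ → ∃ f : E → Γ, (∀ e, A (f e)) ∧ ∀ v, net s t f v = 0 := by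
  classical
  intro n
  induction n using Nat.strong_induction_on with
  | _ n ih =>
    intro s t hn hCl hN
    rcases hC2 s t hCl hN with hz | ⟨κ, hκ⟩
    · exact h4 s t hz
    · refine sgn_pq hA hv hκ fun k => ?_
      obtain ⟨l, m, hlm, hlk, hmk, hne⟩ := ex_pair' k
      obtain ⟨e0, -, he0⟩ := hκ.2 l m hlm
      have hz : κ (s e0) ≠ k ∧ κ (t e0) ≠ k ∧ κ (s e0) ≠ κ (t e0) := by
        rcases he0 with ⟨h6, h7⟩ | ⟨h6, h7⟩
        · rw [h6, h7]; exact ⟨hlk, hmk, hne⟩
        · rw [h6, h7]; exact ⟨hmk, hlk, hne.symm⟩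
      set z := s e0 with hzd
      set π : V → V := fun v => if κ v = k then v else z with hπ
      have hlt : (univ.filter (fun e => π (s e) ≠ π (t e))).card < n := by
        rw [← hn]
        refine card_lt_card ⟨?_, ?_⟩
        · intro x hx
          rw [mem_filter] at hx ⊢
          exact ⟨mem_univ _, fun h => hx.2 (by rw [h])⟩
        · intro h
          have h5 : e0 ∈ univ.filter (fun e => s e ≠ t e) := by
            rw [mem_filter]
            exact ⟨mem_univ _, fun h6 => hz.2.2 (by rw [hzd, h6])⟩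
          have h6 := h h5
          rw [mem_filter] at h6
          apply h6.2
          simp only [hπ]
          rw [if_neg hz.2.1, if_neg hz.1]
      obtain ⟨g, g2, g1⟩ := ih _ hlt _ _ rfl (hC1 s t π hCl)
        (quot_n1 (S' := univ) (f := π) (Subset.refl _) (fun e h h' => absurd h h') hN)
      refine ⟨g, g2, fun v hvk => ?_⟩
      rw [← g1 v]
      have hiff : ∀ x : V, π x = v ↔ x = v := by
        intro x
        simp only [hπ]
        by_cases h6 : κ x = k
        · rw [if_pos h6]
        · rw [if_neg h6]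
          constructor
          · intro h7
            exact absurd (h7 ▸ hvk) hz.1
          · rintro rfl
            exact absurd hvk h6
      unfold net
      refine Finset.sum_congr rfl fun e _ => ?_
      simp only [hiff]

/-- **vertex covers with at most nine vertices** -/
theorem sgn_cover (hA : Hom3 A) {val : Fin 10 → Fin 10 → Γ} (hv : PetS A val)
    (h4 : ∀ s t : E → V, NZ s t univ → ∃ f : E → Γ, (∀ e, A (f e)) ∧ ∀ v, net s t f v = 0)
    (s t : E → V) (C : Finset V)
    (hN : N1 s t univ) (hC : ∀ e, s e ≠ t e → s e ∈ C ∨ t e ∈ C) (h9 : C.card ≤ 9) :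
    ∃ f : E → Γ, (∀ e, A (f e)) ∧ ∀ v, net s t f v = 0 := by
  classical
  refine sgn_class hA hv h4 (Cl := fun s t => ∃ C : Finset V, C.card ≤ 9 ∧
    ∀ e, s e ≠ t e → s e ∈ C ∨ t e ∈ C) ?_ ?_ _ s t rfl ⟨C, h9, hC⟩ hN
  · rintro s t π ⟨C, h1, h2⟩
    refine ⟨C.image π, card_image_le.trans h1, fun e he => ?_⟩
    rcases h2 e (fun h => he (congrArg π h)) with h | h
    · exact Or.inl (mem_image_of_mem _ h)
    · exact Or.inr (mem_image_of_mem _ h)
  · rintro s t ⟨C, h1, h2⟩ h3
    exact cover9 s t univ C h3 (fun e _ he => h2 e he) h1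

end Pool.Agent.R890.FF
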